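import Mathlib

/-!
# Integral means of power series on circles: basic facts
-/

set_option autoImplicit false

namespace Pool.Agent.H954Z.Hardy

open Finset Filter Topology MeasureTheory AddCircle
open scoped ENNReal

variable {T : ℝ} [hT : Fact (0 < T)]

/-- the inclusion of continuous functions into `L^P` of the circle -/
noncomputable abbrev LL (T : ℝ) [Fact (0 < T)] (P : ℝ≥0∞) [Fact (1 ≤ P)] :
    C(AddCircle T, ℂ) →L[ℂ] Lp ℂ P (@haarAddCircle T _) :=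
  ContinuousMap.toLp P haarAddCircle ℂ

lemma memLp_cont (P : ℝ≥0∞) (F : C(AddCircle T, ℂ)) : MemLp F P (@haarAddCircle T _) :=
  MemLp.of_bound F.continuous.aestronglyMeasurable ‖F‖
    (Eventually.of_forall fun x => F.norm_coe_le_norm x)

lemma norm_LL (P : ℝ≥0∞) [Fact (1 ≤ P)] (F : C(AddCircle T, ℂ)) :
    ‖LL T P F‖ = (eLpNorm F P haarAddCircle).toReal := by
  rw [Lp.norm_def, eLpNorm_congr_ae (ContinuousMap.coeFn_toLp haarAddCircle F)]

lemma eLpNorm_eq_LL (P : ℝ≥0∞) [Fact (1 ≤ P)] (F : C(AddCircle T, ℂ)) :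
    eLpNorm F P haarAddCircle = ENNReal.ofReal ‖LL T P F‖ := by
  rw [norm_LL, ENNReal.ofReal_toReal (memLp_cont P F).eLpNorm_ne_top]

lemma eLpNorm_eq_int (q : ℝ) (hq : 0 < q) (F : C(AddCircle T, ℂ)) :
    eLpNorm F (ENNReal.ofReal q) haarAddCircle =
      ENNReal.ofReal ((∫ t, ‖F t‖ ^ q ∂haarAddCircle) ^ q⁻¹) := by
  rw [(memLp_cont _ F).eLpNorm_eq_integral_rpow_norm (by simpa using hq) ENNReal.ofReal_ne_top,
    ENNReal.toReal_ofReal hq.le]

lemma int_nonneg (q : ℝ) (F : C(AddCircle T, ℂ)) : 0 ≤ ∫ t, ‖F t‖ ^ q ∂haarAddCircle :=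
  integral_nonneg fun t => by positivity

lemma integrable_rpow (q : ℝ) (hq : 0 ≤ q) (F : C(AddCircle T, ℂ)) :
    Integrable (fun t => ‖F t‖ ^ q) (@haarAddCircle T _) := by
  have : Continuous (fun t => ‖F t‖ ^ q) := F.continuous.norm.rpow_const fun _ => Or.inr hq
  exact this.integrable_of_hasCompactSupport (HasCompactSupport.of_compactSpace _)

lemma norm_LL_rpow (p : ℝ) (hp : 0 < p) [Fact (1 ≤ ENNReal.ofReal p)] (F : C(AddCircle T, ℂ)) :
    ‖LL T (ENNReal.ofReal p) F‖ ^ p = ∫ t, ‖F t‖ ^ p ∂haarAddCircle := by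
  rw [norm_LL, eLpNorm_eq_int p hp, ENNReal.toReal_ofReal (Real.rpow_nonneg (int_nonneg _ _) _),
    Real.rpow_inv_rpow (int_nonneg _ _) hp.ne']

lemma parseval_fin (s : Finset ℕ) (b : ℕ → ℂ) :
    ∫ t, ‖(∑ l ∈ s, b l • (fourier l : C(AddCircle T, ℂ))) t‖ ^ (2 : ℝ) ∂haarAddCircle =
      ∑ l ∈ s, ‖b l‖ ^ 2 := by
  set F : C(AddCircle T, ℂ) := ∑ l ∈ s, b l • (fourier l : C(AddCircle T, ℂ)) with hF
  have h1 : ‖LL T 2 F‖ ^ 2 = ∫ t, ‖F t‖ ^ (2 : ℝ) ∂haarAddCircle := by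
    have := eLpNorm_eq_int 2 (by norm_num) F
    rw [ENNReal.ofReal_ofNat] at this
    rw [norm_LL, this, ENNReal.toReal_ofReal (Real.rpow_nonneg (int_nonneg _ _) _),
      ← Real.rpow_two, Real.rpow_inv_rpow (int_nonneg _ _) two_ne_zero]
  rw [← h1]
  have ho : Orthonormal ℂ (fun l : ℕ => @fourierLp T _ 2 _ (l : ℤ)) :=
    orthonormal_fourier.comp _ Nat.cast_injective
  have h2 : LL T 2 F = ∑ l ∈ s, b l • @fourierLp T _ 2 _ (l : ℤ) := by
    rw [hF, map_sum]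
    simp only [map_smul]
  have h3 := ho.inner_sum b b s
  rw [← h2, inner_self_eq_norm_sq_to_K] at h3
  simp only [Complex.conj_mul'] at h3
  apply Complex.ofReal_injective
  push_cast
  exact h3

/-- interpolation between the sup norm and the `L^2` norm -/
lemma interp (p : ℝ) (hp : 0 < p) [Fact (1 ≤ ENNReal.ofReal p)] (s : Finset ℕ) (b : ℕ → ℂ) (A B : ℝ)
    (hA : 0 ≤ A) (h1 : ∀ l ∈ s, ‖b l‖ ≤ A) (h2 : ∑ l ∈ s, ‖b l‖ ≤ B) :
    ‖∑ l ∈ s, b l • LL T (ENNReal.ofReal p) (fourier l)‖ ≤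
      A ^ (max p 2)⁻¹ * B ^ (1 - (max p 2)⁻¹) := by
  set q := max p 2 with hq
  have hq2 : 2 ≤ q := le_max_right _ _
  have hq0 : 0 < q := by linarith
  have hB : 0 ≤ B := le_trans (sum_nonneg fun _ _ => norm_nonneg _) h2
  set F : C(AddCircle T, ℂ) := ∑ l ∈ s, b l • (fourier l : C(AddCircle T, ℂ)) with hF
  have e1 : ∑ l ∈ s, b l • LL T (ENNReal.ofReal p) (fourier l) = LL T (ENNReal.ofReal p) F := by
    rw [hF, map_sum]
    simp only [map_smul]
  have hsup : ‖F‖ ≤ B := by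
    refine (norm_sum_le _ _).trans (le_trans (le_of_eq ?_) h2)
    refine sum_congr rfl fun l _ => ?_
    rw [norm_smul, fourier_norm, mul_one]
  have h4 : ∑ l ∈ s, ‖b l‖ ^ 2 ≤ A * B := by
    calc _ ≤ ∑ l ∈ s, A * ‖b l‖ := sum_le_sum fun l hl => by
          rw [sq]; exact mul_le_mul_of_nonneg_right (h1 l hl) (norm_nonneg _)
      _ ≤ _ := by rw [← mul_sum]; exact mul_le_mul_of_nonneg_left h2 hA
  have h5 : ∫ t, ‖F t‖ ^ q ∂haarAddCircle ≤ A * B ^ (q - 1) := by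
    calc _ ≤ ∫ t, B ^ (q - 2) * ‖F t‖ ^ (2 : ℝ) ∂haarAddCircle := by
          refine integral_mono (integrable_rpow q hq0.le F)
            ((integrable_rpow 2 (by norm_num) F).const_mul _) fun t => ?_
          have : ‖F t‖ ^ q = ‖F t‖ ^ (q - 2) * ‖F t‖ ^ (2 : ℝ) := by
            rw [← Real.rpow_add_of_nonneg (norm_nonneg _) (by linarith) (by norm_num)]
            congr 1; ring
          simp only [this]
          refine mul_le_mul_of_nonneg_right ?_ (by positivity)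
          exact Real.rpow_le_rpow (norm_nonneg _) ((F.norm_coe_le_norm t).trans hsup) (by linarith)
      _ = B ^ (q - 2) * ∑ l ∈ s, ‖b l‖ ^ 2 := by rw [integral_const_mul, parseval_fin]
      _ ≤ B ^ (q - 2) * (A * B) := mul_le_mul_of_nonneg_left h4 (by positivity)
      _ = A * B ^ (q - 1) := by
          have : B ^ (q - 1) = B ^ (q - 2) * B ^ (1 : ℝ) := by
            rw [← Real.rpow_add_of_nonneg hB (by linarith) (by norm_num)]
            congr 1; ring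
          rw [this, Real.rpow_one]; ring
  have h6 : eLpNorm F (ENNReal.ofReal p) haarAddCircle ≤
      eLpNorm F (ENNReal.ofReal q) haarAddCircle :=
    eLpNorm_le_eLpNorm_of_exponent_le (ENNReal.ofReal_le_ofReal (le_max_left _ _))
      F.continuous.aestronglyMeasurable
  rw [eLpNorm_eq_LL, eLpNorm_eq_int q hq0,
    ENNReal.ofReal_le_ofReal_iff (Real.rpow_nonneg (int_nonneg _ _) _)] at h6
  rw [e1]
  refine h6.trans ((Real.rpow_le_rpow (int_nonneg _ _) h5 (by positivity)).trans (le_of_eq ?_))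
  rw [Real.mul_rpow hA (by positivity), ← Real.rpow_mul hB]
  congr 2
  field_simp

/-- pointwise uniform convexity inequality -/
lemma uc_point (p : ℝ) (hp : 1 < p) (δ : ℝ) (hδ : 0 < δ) : ∃ C : ℝ, 0 ≤ C ∧ ∀ a b : ℂ,
    ‖a - b‖ ^ p ≤ δ * (‖a‖ ^ p + ‖b‖ ^ p) +
      C * ((‖a‖ ^ p + ‖b‖ ^ p) / 2 - ‖(1 / 2 : ℂ) * (a + b)‖ ^ p) := by
  have hp0 : 0 < p := by linarith
  let D : ℂ × ℂ → ℝ := fun x => (‖x.1‖ ^ p + ‖x.2‖ ^ p) / 2 - ‖(1 / 2 : ℂ) * (x.1 + x.2)‖ ^ p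
  have hmid : ∀ a b : ℂ, ‖(1 / 2 : ℂ) * (a + b)‖ ≤ (1 / 2) * ‖a‖ + (1 / 2) * ‖b‖ := by
    intro a b
    rw [norm_mul]
    have := norm_add_le a b
    simp only [one_div, norm_inv, Complex.norm_ofNat]
    linarith
  have hD0 : ∀ x, 0 ≤ D x := by
    intro x
    have h1 := (convexOn_rpow hp.le).2 (norm_nonneg x.1) (norm_nonneg x.2)
      (show (0 : ℝ) ≤ 1 / 2 by norm_num) (show (0 : ℝ) ≤ 1 / 2 by norm_num) (by norm_num)
    simp only [smul_eq_mul] at h1
    have h2 := Real.rpow_le_rpow (norm_nonneg _) (hmid x.1 x.2) hp0.le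
    simp only [D]
    linarith
  have hDpos : ∀ x : ℂ × ℂ, x.1 ≠ x.2 → 0 < D x := by
    intro x hx
    by_cases hn : ‖x.1‖ = ‖x.2‖
    · have h1 : ‖(1 / 2 : ℂ) * (x.1 + x.2)‖ < ‖x.1‖ := by
        have := (norm_midpoint_lt_iff hn).mpr hx
        rw [norm_smul] at this
        rw [norm_mul]
        simpa using this
      have h2 := Real.rpow_lt_rpow (norm_nonneg _) h1 hp0
      simp only [D]
      rw [← hn]
      linarith
    · have h1 := (strictConvexOn_rpow hp).2 (norm_nonneg x.1) (norm_nonneg x.2) hn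
        (show (0 : ℝ) < 1 / 2 by norm_num) (show (0 : ℝ) < 1 / 2 by norm_num) (by norm_num)
      simp only [smul_eq_mul] at h1
      have h2 := Real.rpow_le_rpow (norm_nonneg _) (hmid x.1 x.2) hp0.le
      simp only [D]
      linarith
  have hc : ∀ g : ℂ × ℂ → ℂ, Continuous g → Continuous fun x => ‖g x‖ ^ p :=
    fun g hg => hg.norm.rpow_const fun _ => Or.inr hp0.le
  have hDc : Continuous D :=
    (((hc _ continuous_fst).add (hc _ continuous_snd)).div_const _).sub (hc _ (by fun_prop))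
  let K : Set (ℂ × ℂ) := {x | ‖x‖ = 1 ∧ δ ≤ ‖x.1 - x.2‖ ^ p}
  have hK : IsCompact K := by
    refine (isCompact_sphere (0 : ℂ × ℂ) 1).of_isClosed_subset ?_ ?_
    · exact (isClosed_eq continuous_norm continuous_const).inter
        (isClosed_le continuous_const (hc _ (by fun_prop)))
    · intro x hx
      simpa using hx.1
  obtain ⟨m, hm0, hm⟩ : ∃ m : ℝ, 0 < m ∧ ∀ x ∈ K, m ≤ D x := by
    rcases K.eq_empty_or_nonempty with h | h
    · exact ⟨1, one_pos, by simp [h]⟩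
    · obtain ⟨x0, hx0, hmin⟩ := hK.exists_isMinOn h hDc.continuousOn
      refine ⟨D x0, hDpos x0 ?_, fun x hx => hmin hx⟩
      intro he
      have := hx0.2
      rw [he, sub_self, norm_zero, Real.zero_rpow hp0.ne'] at this
      linarith
  have unit : ∀ x : ℂ × ℂ, ‖x‖ = 1 →
      ‖x.1 - x.2‖ ^ p ≤ δ * (‖x.1‖ ^ p + ‖x.2‖ ^ p) + 2 ^ p / m * D x := by
    intro x hx
    have hS : 1 ≤ ‖x.1‖ ^ p + ‖x.2‖ ^ p := by
      have h1 : 0 ≤ ‖x.1‖ ^ p := by positivity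
      have h2 : 0 ≤ ‖x.2‖ ^ p := by positivity
      rw [Prod.norm_def] at hx
      rcases max_choice ‖x.1‖ ‖x.2‖ with h | h
      · rw [h] at hx; rw [hx, Real.one_rpow]; linarith
      · rw [h] at hx; rw [hx, Real.one_rpow]; linarith
    by_cases hx2 : δ ≤ ‖x.1 - x.2‖ ^ p
    · have h1 := hm x ⟨hx, hx2⟩
      have h2 : ‖x.1 - x.2‖ ≤ 2 := by
        have := norm_sub_le x.1 x.2
        have a1 := norm_fst_le x
        have a2 := norm_snd_le x
        linarith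
      have h3 := Real.rpow_le_rpow (norm_nonneg _) h2 hp0.le
      have h4 : (2 : ℝ) ^ p ≤ 2 ^ p / m * D x := by
        rw [div_mul_eq_mul_div, le_div_iff₀ hm0]
        exact mul_le_mul_of_nonneg_left h1 (by positivity)
      have h5 : 0 ≤ δ * (‖x.1‖ ^ p + ‖x.2‖ ^ p) := by positivity
      linarith
    · have h1 : 0 ≤ 2 ^ p / m * D x := mul_nonneg (by positivity) (hD0 x)
      have h2 : δ ≤ δ * (‖x.1‖ ^ p + ‖x.2‖ ^ p) := le_mul_of_one_le_right hδ.le hS
      linarith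
  refine ⟨2 ^ p / m, by positivity, fun a b => ?_⟩
  by_cases h0 : ((a, b) : ℂ × ℂ) = 0
  · obtain ⟨rfl, rfl⟩ := Prod.mk_eq_zero.mp h0
    simp [Real.zero_rpow hp0.ne']
  · set s : ℝ := ‖((a, b) : ℂ × ℂ)‖ with hs
    have hs0 : 0 < s := norm_pos_iff.mpr h0
    have hu := unit (((s⁻¹ : ℝ) : ℂ) • (a, b)) (by
      rw [norm_smul, Complex.norm_real, Real.norm_of_nonneg (by positivity), ← hs]
      field_simp)
    have hsc : ∀ z : ℂ, ‖((s⁻¹ : ℝ) : ℂ) * z‖ ^ p = s⁻¹ ^ p * ‖z‖ ^ p := by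
      intro z
      rw [norm_mul, Complex.norm_real, Real.norm_of_nonneg (by positivity),
        Real.mul_rpow (by positivity) (norm_nonneg _)]
    simp only [D, Prod.smul_mk, smul_eq_mul, ← mul_sub, ← mul_add,
      mul_left_comm (1 / 2 : ℂ) ((s⁻¹ : ℝ) : ℂ), hsc] at hu
    have hσ : 0 < s⁻¹ ^ p := by positivity
    refine le_of_mul_le_mul_left ?_ hσ
    refine hu.trans (le_of_eq ?_)
    ring

/-- uniform convexity of the `L^p` norm on continuous functions -/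
lemma uc_LL (p : ℝ) (hp : 1 < p) [Fact (1 ≤ ENNReal.ofReal p)] (M ε : ℝ) (hε : 0 < ε) :
    ∃ δ : ℝ, 0 < δ ∧ ∀ F G : C(AddCircle T, ℂ), ‖LL T (ENNReal.ofReal p) F‖ ≤ M →
      ‖LL T (ENNReal.ofReal p) G‖ ≤ M → 2 * (M - δ) ≤ ‖LL T (ENNReal.ofReal p) (F + G)‖ →
      ‖LL T (ENNReal.ofReal p) (F - G)‖ ≤ ε := by
  have hp0 : 0 < p := by linarith
  have hεp : 0 < ε ^ p := by positivity
  obtain ⟨C, hC0, hC⟩ := uc_point p hp (ε ^ p / (4 * (|M| ^ p + 1))) (by positivity)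
  have hcont : ContinuousAt (fun y : ℝ => y ^ p) M := Real.continuousAt_rpow_const _ _ (Or.inr hp0.le)
  obtain ⟨δ, hδ0, hδ⟩ := Metric.continuousAt_iff.mp hcont (ε ^ p / (2 * (C + 1))) (by positivity)
  refine ⟨δ / 2, by positivity, fun F G hF hG hFG => ?_⟩
  have hM : 0 ≤ M := (norm_nonneg _).trans hF
  rw [abs_of_nonneg hM] at hC
  set H : C(AddCircle T, ℂ) := (1 / 2 : ℂ) • (F + G) with hH
  have hHn : ‖LL T (ENNReal.ofReal p) H‖ = 1 / 2 * ‖LL T (ENNReal.ofReal p) (F + G)‖ := by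
    rw [hH, map_smul, norm_smul]; simp
  have hH1 : ‖LL T (ENNReal.ofReal p) H‖ ≤ M := by
    rw [hHn, map_add]
    have := norm_add_le (LL T (ENNReal.ofReal p) F) (LL T (ENNReal.ofReal p) G)
    linarith
  have hH2 : M ^ p - ‖LL T (ENNReal.ofReal p) H‖ ^ p ≤ ε ^ p / (2 * (C + 1)) := by
    have : dist ‖LL T (ENNReal.ofReal p) H‖ M < δ := by
      rw [Real.dist_eq, abs_lt]
      constructor <;> linarith
    have h2 := hδ this
    rw [Real.dist_eq, abs_lt] at h2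
    linarith [h2.1]
  have iF := integrable_rpow p hp0.le F
  have iG := integrable_rpow p hp0.le G
  have iH := integrable_rpow p hp0.le H
  have h1 : ∫ t, ‖(F - G) t‖ ^ p ∂haarAddCircle ≤
      ∫ t, (ε ^ p / (4 * (M ^ p + 1)) * (‖F t‖ ^ p + ‖G t‖ ^ p) +
        C * ((‖F t‖ ^ p + ‖G t‖ ^ p) / 2 - ‖H t‖ ^ p)) ∂haarAddCircle :=
    integral_mono (integrable_rpow p hp0.le _)
      (((iF.add iG).const_mul _).add ((((iF.add iG).div_const _).sub iH).const_mul _))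
      fun t => hC (F t) (G t)
  have iFG : Integrable (fun t => ‖F t‖ ^ p + ‖G t‖ ^ p) (@haarAddCircle T _) := iF.add iG
  have iFG2 : Integrable (fun t => (‖F t‖ ^ p + ‖G t‖ ^ p) / 2) (@haarAddCircle T _) :=
    iFG.div_const _
  have iD : Integrable (fun t => (‖F t‖ ^ p + ‖G t‖ ^ p) / 2 - ‖H t‖ ^ p) (@haarAddCircle T _) :=
    iFG2.sub iH
  rw [integral_add (iFG.const_mul _) (iD.const_mul _),
    integral_const_mul, integral_const_mul, integral_sub iFG2 iH,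
    integral_div, integral_add iF iG, ← norm_LL_rpow p hp0, ← norm_LL_rpow p hp0,
    ← norm_LL_rpow p hp0, ← norm_LL_rpow p hp0] at h1
  have hFp := Real.rpow_le_rpow (norm_nonneg _) hF hp0.le
  have hGp := Real.rpow_le_rpow (norm_nonneg _) hG hp0.le
  have hMp : 0 ≤ M ^ p := by positivity
  have a1 : ε ^ p / (4 * (M ^ p + 1)) *
      (‖LL T (ENNReal.ofReal p) F‖ ^ p + ‖LL T (ENNReal.ofReal p) G‖ ^ p) ≤ ε ^ p / 2 := by
    calc _ ≤ ε ^ p / (4 * (M ^ p + 1)) * (2 * (M ^ p + 1)) :=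
          mul_le_mul_of_nonneg_left (by linarith) (by positivity)
      _ = _ := by field_simp; norm_num
  have a2 : C * ((‖LL T (ENNReal.ofReal p) F‖ ^ p + ‖LL T (ENNReal.ofReal p) G‖ ^ p) / 2 -
      ‖LL T (ENNReal.ofReal p) H‖ ^ p) ≤ ε ^ p / 2 := by
    calc _ ≤ C * (ε ^ p / (2 * (C + 1))) := mul_le_mul_of_nonneg_left (by linarith) hC0
      _ ≤ (C + 1) * (ε ^ p / (2 * (C + 1))) :=
          mul_le_mul_of_nonneg_right (by linarith) (by positivity)
      _ = _ := by field_simp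
  exact (Real.rpow_le_rpow_iff (norm_nonneg _) hε.le hp0).mp (by linarith)

end Pool.Agent.H954Z.Hardy
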