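import Pool.Agent.H954Z.HardyA

/-!
# Monotonicity of integral means and boundary functions in `H^p`, `1 < p < ∞`
-/

set_option autoImplicit false

namespace Pool.Agent.H954Z.Hardy

open Finset Filter Topology MeasureTheory AddCircle
open scoped ENNReal

variable {T : ℝ} [hT : Fact (0 < T)]

/-- the function `t ↦ f (w e(t))` on the circle -/
noncomputable def circ (T : ℝ) [Fact (0 < T)] (f : ℂ → ℂ) (w : ℂ) : C(AddCircle T, ℂ) :=
  ContinuousMap.mkD (fun t => f (w * fourier 1 t)) 0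

/-- `f` is the sum of the power series with coefficients `a` on the disc of radius `R` -/
def PS (f : ℂ → ℂ) (a : ℕ → ℂ) (R : ℝ) : Prop :=
  ∀ z : ℂ, ‖z‖ < R → HasSum (fun l => a l * z ^ l) (f z)

omit hT in
lemma fourier_nat (l : ℕ) (t : AddCircle T) : fourier (l : ℤ) t = (fourier 1 t) ^ l := by
  induction l with
  | zero => simp
  | succ l ih => rw [Nat.cast_succ, fourier_add, ih, pow_succ]

omit hT in
lemma norm_fourier_one (t : AddCircle T) : ‖fourier 1 t‖ = 1 := Circle.norm_coe _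

lemma exists_PS (f : ℂ → ℂ) (R : ℝ) (hf : DifferentiableOn ℂ f (Metric.ball 0 R)) :
    ∃ a, PS f a R := by
  refine ⟨fun l => ((l.factorial : ℂ))⁻¹ * iteratedDeriv l f 0, fun z hz => ?_⟩
  have := Complex.hasSum_taylorSeries_on_ball hf (z := z) (by simpa using hz)
  simp only [sub_zero, smul_eq_mul] at this
  have e : (fun l : ℕ => ((l.factorial : ℂ))⁻¹ * iteratedDeriv l f 0 * z ^ l) =
      fun l : ℕ => ((l.factorial : ℂ))⁻¹ * (z ^ l * iteratedDeriv l f 0) := by
    funext l; ring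
  rw [e]
  exact this

lemma PS.summable {f : ℂ → ℂ} {a : ℕ → ℂ} {R : ℝ} (h : PS f a R) (w : ℂ) (hw : ‖w‖ < R) :
    Summable (fun l => ‖a l * w ^ l‖) :=
  summable_norm_iff.mpr (h w hw).summable

lemma PS.hasSum_circ {f : ℂ → ℂ} {a : ℕ → ℂ} {R : ℝ} (h : PS f a R) (w : ℂ) (hw : ‖w‖ < R) :
    HasSum (fun l : ℕ => (a l * w ^ l) • (fourier (l : ℤ) : C(AddCircle T, ℂ))) (circ T f w) ∧
      ∀ t, circ T f w t = f (w * fourier 1 t) := by
  have hs : Summable (fun l : ℕ => (a l * w ^ l) • (fourier (l : ℤ) : C(AddCircle T, ℂ))) := by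
    apply Summable.of_norm
    simpa only [norm_smul, fourier_norm, mul_one] using h.summable w hw
  have h1 : ∀ t, (∑' l : ℕ, (a l * w ^ l) • (fourier (l : ℤ) : C(AddCircle T, ℂ))) t =
      f (w * fourier 1 t) := by
    intro t
    have h2 := ContinuousMap.hasSum_apply hs.hasSum t
    have h3 := h (w * fourier 1 t) (by rw [norm_mul, norm_fourier_one, mul_one]; exact hw)
    refine h2.unique ?_
    convert h3 using 2 with l
    rw [ContinuousMap.smul_apply, fourier_nat, smul_eq_mul, mul_pow, mul_assoc]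
  have hc : Continuous (fun t : AddCircle T => f (w * fourier 1 t)) := by
    have := (∑' l : ℕ, (a l * w ^ l) • (fourier (l : ℤ) : C(AddCircle T, ℂ))).continuous
    convert this using 1
    funext t
    exact (h1 t).symm
  have h4 : ∀ t, circ T f w t = f (w * fourier 1 t) := fun t =>
    ContinuousMap.mkD_apply_of_continuous hc
  refine ⟨?_, h4⟩
  have : circ T f w = ∑' l : ℕ, (a l * w ^ l) • (fourier (l : ℤ) : C(AddCircle T, ℂ)) := by
    ext t; rw [h4, h1]
  rw [this]
  exact hs.hasSum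

lemma PS.differentiableAt {f : ℂ → ℂ} {a : ℕ → ℂ} {R : ℝ} (h : PS f a R) (w : ℂ) (hw : ‖w‖ < R) :
    DifferentiableAt ℂ (circ T f) w := by
  obtain ⟨R', h1, h2⟩ := exists_between hw
  have hR' : 0 ≤ R' := (norm_nonneg _).trans h1.le
  have hs := h.summable (R' : ℂ) (by rwa [Complex.norm_real, Real.norm_of_nonneg hR'])
  have hd : DifferentiableOn ℂ
      (fun w : ℂ => ∑' l : ℕ, (a l * w ^ l) • (fourier (l : ℤ) : C(AddCircle T, ℂ)))
      (Metric.ball 0 R') := by
    refine Complex.differentiableOn_tsum_of_summable_norm hs (fun l => ?_) Metric.isOpen_ball ?_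
    · fun_prop
    · intro l z hz
      rw [norm_smul, fourier_norm, mul_one, norm_mul, norm_mul, norm_pow, norm_pow,
        Complex.norm_real, Real.norm_of_nonneg hR']
      have : ‖z‖ ≤ R' := (mem_ball_zero_iff.mp hz).le
      gcongr
  have hd2 : DifferentiableOn ℂ (circ T f) (Metric.ball 0 R') := by
    refine hd.congr fun z hz => ?_
    exact (h.hasSum_circ z ((mem_ball_zero_iff.mp hz).trans h2)).1.tsum_eq.symm
  exact hd2.differentiableAt (Metric.isOpen_ball.mem_nhds (mem_ball_zero_iff.mpr h1))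

lemma PS.rot {f : ℂ → ℂ} {a : ℕ → ℂ} {R : ℝ} (h : PS f a R) (P : ℝ≥0∞) [Fact (1 ≤ P)]
    (w : ℂ) (hw : ‖w‖ < R) : ‖LL T P (circ T f w)‖ = ‖LL T P (circ T f (‖w‖ : ℝ))‖ := by
  have hw' : ‖((‖w‖ : ℝ) : ℂ)‖ < R := by simpa using hw
  let τ : AddCircle T := ((Complex.arg w * T / (2 * Real.pi) : ℝ) : AddCircle T)
  have hτ : (‖w‖ : ℂ) * fourier 1 τ = w := by
    conv_rhs => rw [← Complex.norm_mul_exp_arg_mul_I w]
    congr 1
    simp only [τ]
    rw [fourier_coe_apply]
    congr 1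
    have h1 : (T : ℂ) ≠ 0 := by exact_mod_cast hT.out.ne'
    have h2 : (Real.pi : ℂ) ≠ 0 := by exact_mod_cast Real.pi_ne_zero
    push_cast
    field_simp
  have e1 : (circ T f w : AddCircle T → ℂ) = (circ T f (‖w‖ : ℝ)) ∘ (fun t => τ + t) := by
    funext t
    rw [Function.comp_apply, (h.hasSum_circ w hw).2, (h.hasSum_circ _ hw').2]
    congr 1
    rw [fourier_one, fourier_one, toCircle_add, Circle.coe_mul, ← mul_assoc, ← fourier_one (x := τ),
      hτ]
  rw [norm_LL, norm_LL, e1, eLpNorm_comp_measurePreserving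
    (circ T f (‖w‖ : ℝ)).continuous.aestronglyMeasurable (measurePreserving_add_left _ τ)]

lemma PS.mono {f : ℂ → ℂ} {a : ℕ → ℂ} {R : ℝ} (h : PS f a R) (P : ℝ≥0∞) [Fact (1 ≤ P)]
    (s t : ℝ) (hs : 0 ≤ s) (hst : s ≤ t) (ht : t < R) :
    ‖LL T P (circ T f s)‖ ≤ ‖LL T P (circ T f t)‖ := by
  rcases (hs.trans hst).eq_or_lt with h0 | h0
  · obtain rfl : s = t := by linarith
    exact le_rfl
  have hd : DiffContOnCl ℂ (fun w => LL T P (circ T f w)) (Metric.ball 0 t) := by
    apply DifferentiableOn.diffContOnCl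
    intro w hw
    rw [closure_ball _ h0.ne'] at hw
    have hw' : ‖w‖ < R := lt_of_le_of_lt (mem_closedBall_zero_iff.mp hw) ht
    exact ((LL T P).differentiableAt.comp w (h.differentiableAt w hw')).differentiableWithinAt
  refine Complex.norm_le_of_forall_mem_frontier_norm_le Metric.isBounded_ball hd ?_ ?_
  · intro w hw
    rw [frontier_ball _ h0.ne'] at hw
    have hw' : ‖w‖ = t := mem_sphere_zero_iff_norm.mp hw
    rw [h.rot P w (hw' ▸ ht), hw']
  · rw [closure_ball _ h0.ne', mem_closedBall_zero_iff, Complex.norm_real, Real.norm_of_nonneg hs]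
    exact hst

/-- radii tending to one -/
noncomputable def rho (n : ℕ) : ℝ := 1 - 1 / ((n : ℝ) + 2)

lemma rho_pos (n : ℕ) : 0 < rho n := by
  unfold rho
  have : 1 / ((n : ℝ) + 2) < 1 := by
    rw [div_lt_one (by positivity)]
    have : (0 : ℝ) ≤ n := Nat.cast_nonneg n
    linarith
  linarith

lemma rho_lt (n : ℕ) : rho n < 1 := by
  unfold rho
  have : 0 < 1 / ((n : ℝ) + 2) := by positivity
  linarith

lemma rho_tendsto : Tendsto rho atTop (𝓝 1) := by
  have : Tendsto (fun n : ℕ => 1 / ((n : ℝ) + 2)) atTop (𝓝 0) :=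
    tendsto_const_nhds.div_atTop (tendsto_atTop_add_const_right _ _ tendsto_natCast_atTop_atTop)
  have h2 := (tendsto_const_nhds (x := (1 : ℝ))).sub this
  rw [sub_zero] at h2
  exact h2

lemma norm_ofReal_lt {r R : ℝ} (h0 : 0 ≤ r) (h : r < R) : ‖(r : ℂ)‖ < R := by
  rwa [Complex.norm_real, Real.norm_of_nonneg h0]

lemma PS.mem_closure {f : ℂ → ℂ} {a : ℕ → ℂ} {R : ℝ} (h : PS f a R) (P : ℝ≥0∞) [Fact (1 ≤ P)]
    (w : ℂ) (hw : ‖w‖ < R) : LL T P (circ T f w) ∈
      (Submodule.span ℂ (Set.range fun l : ℕ => LL T P (fourier (l : ℤ)))).topologicalClosure := by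
  have h1 := (LL T P).hasSum (h.hasSum_circ (T := T) w hw).1
  refine mem_closure_of_tendsto h1.tendsto_sum_nat (Eventually.of_forall fun N => ?_)
  refine Submodule.sum_mem _ fun l _ => ?_
  rw [map_smul]
  exact Submodule.smul_mem _ _ (Submodule.subset_span ⟨l, rfl⟩)

/-- existence of the boundary function in `L^p` -/
theorem PS.boundary {f : ℂ → ℂ} {a : ℕ → ℂ} (h : PS f a 1) (p : ℝ) (hp : 1 < p)
    [Fact (1 ≤ ENNReal.ofReal p)] (B : ℝ)
    (hB : ∀ r : ℝ, 0 ≤ r → r < 1 → ‖LL T (ENNReal.ofReal p) (circ T f r)‖ ≤ B) :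
    ∃ Fs ∈ (Submodule.span ℂ (Set.range fun l : ℕ =>
        LL T (ENNReal.ofReal p) (fourier (l : ℤ)))).topologicalClosure,
      Tendsto (fun n => LL T (ENNReal.ofReal p) (circ T f (rho n))) atTop (𝓝 Fs) := by
  set P := ENNReal.ofReal p with hP
  let x : ℕ → Lp ℂ P (@haarAddCircle T _) := fun n => LL T P (circ T f (rho n))
  have hbdd : BddAbove (Set.range fun n => ‖x n‖) :=
    ⟨B, by rintro _ ⟨n, rfl⟩; exact hB _ (rho_pos n).le (rho_lt n)⟩
  set M := ⨆ n, ‖x n‖ with hM
  have hxM : ∀ n, ‖x n‖ ≤ M := fun n => le_ciSup hbdd n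
  have hc : CauchySeq x := by
    rw [Metric.cauchySeq_iff]
    intro ε hε
    obtain ⟨δ, hδ0, hδ⟩ := uc_LL (T := T) p hp M (ε / 2) (by positivity)
    obtain ⟨n0, hn0⟩ : ∃ n0, M - δ / 2 < ‖x n0‖ := exists_lt_of_lt_ciSup (by linarith)
    set u := rho n0 with hu
    have hu0 : 0 < u := rho_pos n0
    have hu1 : u < 1 := rho_lt n0
    have hcont : Tendsto (fun n => LL T P (circ T f ((rho n * u : ℝ) : ℂ))) atTop (𝓝 (x n0)) := by
      have h1 : ContinuousAt (fun w => LL T P (circ T f w)) (u : ℂ) :=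
        ((LL T P).differentiableAt.comp _
          (h.differentiableAt (u : ℂ) (norm_ofReal_lt hu0.le hu1))).continuousAt
      have h2 : Tendsto (fun n => ((rho n * u : ℝ) : ℂ)) atTop (𝓝 (u : ℂ)) := by
        have := (rho_tendsto.mul_const u).ofReal
        simpa using this
      exact h1.tendsto.comp h2
    obtain ⟨N, hN⟩ := Metric.tendsto_atTop.mp hcont (δ / 2) (by positivity)
    refine ⟨N, fun m hm n hn => ?_⟩
    -- the auxiliary function
    let g : ℂ → ℂ := fun z => f (rho m * z) + f (rho n * z)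
    let R : ℝ := 1 / max (rho m) (rho n)
    have hmax0 : 0 < max (rho m) (rho n) := lt_max_of_lt_left (rho_pos m)
    have hR : 1 < R := by
      rw [lt_div_iff₀ hmax0, one_mul]; exact max_lt (rho_lt m) (rho_lt n)
    have hlt : ∀ k, rho k ≤ max (rho m) (rho n) → ∀ z : ℂ, ‖z‖ < R → ‖(rho k : ℂ) * z‖ < 1 := by
      intro k hk z hz
      rw [norm_mul, Complex.norm_real, Real.norm_of_nonneg (rho_pos k).le]
      rw [lt_div_iff₀ hmax0] at hz
      calc rho k * ‖z‖ ≤ max (rho m) (rho n) * ‖z‖ := by gcongr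
        _ < 1 := by linarith
    have hg : PS g (fun l => a l * (rho m : ℂ) ^ l + a l * (rho n : ℂ) ^ l) R := by
      intro z hz
      have h1 := h _ (hlt m (le_max_left _ _) z hz)
      have h2 := h _ (hlt n (le_max_right _ _) z hz)
      convert h1.add h2 using 2 with l
      ring
    have hcirc : ∀ s : ℝ, 0 ≤ s → s ≤ 1 → circ T g s =
        circ T f ((rho m * s : ℝ) : ℂ) + circ T f ((rho n * s : ℝ) : ℂ) := by
      intro s hs0 hs1
      have hk : ∀ k, ‖((rho k * s : ℝ) : ℂ)‖ < 1 := fun k =>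
        norm_ofReal_lt (mul_nonneg (rho_pos k).le hs0)
          (lt_of_le_of_lt (mul_le_of_le_one_right (rho_pos k).le hs1) (rho_lt k))
      ext t
      rw [ContinuousMap.add_apply, (hg.hasSum_circ _ (norm_ofReal_lt hs0 (by linarith))).2,
        (h.hasSum_circ _ (hk m)).2, (h.hasSum_circ _ (hk n)).2]
      simp only [g]
      push_cast
      rw [mul_assoc, mul_assoc]
    have hmono := hg.mono (T := T) P u 1 hu0.le hu1.le hR
    rw [hcirc u hu0.le hu1.le, hcirc 1 zero_le_one le_rfl, mul_one, mul_one] at hmono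
    have h3 := hN m hm
    have h4 := hN n hn
    rw [dist_eq_norm] at h3 h4
    have h5 : 2 * (M - δ) ≤ ‖LL T P (circ T f (rho m) + circ T f (rho n))‖ := by
      refine le_trans ?_ hmono
      rw [map_add]
      set y1 := LL T P (circ T f ((rho m * u : ℝ) : ℂ))
      set y2 := LL T P (circ T f ((rho n * u : ℝ) : ℂ))
      have e1 : (2 : ℂ) • x n0 = (y1 + y2) - (y1 - x n0) - (y2 - x n0) := by
        rw [two_smul]; abel
      have e2 : ‖(2 : ℂ) • x n0‖ = 2 * ‖x n0‖ := by rw [norm_smul]; simp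
      have e3 := norm_sub_le ((y1 + y2) - (y1 - x n0)) (y2 - x n0)
      have e4 := norm_sub_le (y1 + y2) (y1 - x n0)
      rw [← e1, e2] at e3
      linarith
    have h6 := hδ _ _ (hxM m) (hxM n) h5
    rw [map_sub] at h6
    rw [dist_eq_norm]
    linarith
  obtain ⟨Fs, hFs⟩ := cauchySeq_tendsto_of_complete hc
  refine ⟨Fs, ?_, hFs⟩
  refine (Submodule.isClosed_topologicalClosure _).mem_of_tendsto hFs (Eventually.of_forall fun n => ?_)
  exact h.mem_closure P _ (norm_ofReal_lt (rho_pos n).le (rho_lt n))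

end Pool.Agent.H954Z.Hardy
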