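import Mathlib

/-!
# Hardy spaces, Cauchy kernels, representing systems, upper density (definitions)
-/

set_option autoImplicit false

namespace Pool.Agent.H954Z.HardyDefs

open Filter Topology
open scoped ENNReal

/-- The integral mean `((1/2π) ∫_0^{2π} |f(r e^{iθ})|^p dθ)^{1/p}`, with values in `[0,∞]`. -/
noncomputable def integralMean (p : ℝ) (f : ℂ → ℂ) (r : ℝ) : ℝ≥0∞ :=
  ((∫⁻ θ in Set.Ioc (0 : ℝ) (2 * Real.pi), ‖f (r * Complex.exp (θ * Complex.I))‖ₑ ^ p) /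
    ENNReal.ofReal (2 * Real.pi)) ^ (1 / p)

/-- The `H^p` norm: the supremum of the integral means over `0 ≤ r < 1`. -/
noncomputable def hardyNorm (p : ℝ) (f : ℂ → ℂ) : ℝ≥0∞ :=
  ⨆ r ∈ Set.Ico (0 : ℝ) 1, integralMean p f r

/-- `f` is holomorphic on the unit disc and has finite `H^p` norm. -/
def MemHardy (p : ℝ) (f : ℂ → ℂ) : Prop :=
  DifferentiableOn ℂ f (Metric.ball 0 1) ∧ hardyNorm p f < ⊤

/-- The Cauchy kernel `k_λ(z) = 1 / (1 - conj(λ) z)`. -/
noncomputable def cauchyKernel (lam z : ℂ) : ℂ := 1 / (1 - (starRingEnd ℂ) lam * z)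

/-- The Cauchy kernels at the points `Λ 0, Λ 1, ...` form a representing system in `H^p`: every
`f ∈ H^p` is the sum of a series `∑ c_n k_{Λ n}` converging in the norm of `H^p`. -/
def IsRepresenting (p : ℝ) (Λ : ℕ → ℂ) : Prop :=
  ∀ f : ℂ → ℂ, MemHardy p f → ∃ c : ℕ → ℂ,
    Tendsto (fun N : ℕ => hardyNorm p
      (fun z => f z - ∑ n ∈ Finset.range N, c n * cauchyKernel (Λ n) z)) atTop (𝓝 0)

/-- The upper density `limsup_{r → 1-} (1 - r) #(Λ ∩ {|z| < r})`, with values in `[0,∞]`. -/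
noncomputable def upperDensity (Λ : ℕ → ℂ) : ℝ≥0∞ :=
  limsup (fun r : ℝ => ENNReal.ofReal (1 - r) *
    ((Set.range Λ ∩ Metric.ball 0 r).encard : ℝ≥0∞)) (𝓝[<] 1)

end Pool.Agent.H954Z.HardyDefs
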