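import Mathlib

/-!
# The van der Corput points on the unit circle
-/

set_option autoImplicit false

namespace Pool.Agent.H954Z.Rep

open Finset

/-- van der Corput angles -/
noncomputable def th (i : ℕ) : ℝ :=
  if h : i = 0 then 0 else th (i / 2) / 2 + ((i % 2 : ℕ) : ℝ) / 2
decreasing_by omega

lemma th_zero : th 0 = 0 := by rw [th]; simp

lemma th_even (i : ℕ) : th (2 * i) = th i / 2 := by
  rcases Nat.eq_zero_or_pos i with rfl | hi
  · simp [th_zero]
  · rw [th, dif_neg (by omega)]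
    simp

lemma th_odd (i : ℕ) : th (2 * i + 1) = th i / 2 + 1 / 2 := by
  rw [th, dif_neg (by omega)]
  have h1 : (2 * i + 1) / 2 = i := by omega
  have h2 : (2 * i + 1) % 2 = 1 := by omega
  rw [h1, h2]; simp

/-- van der Corput points -/
noncomputable def u (i : ℕ) : ℂ := Complex.exp (((2 * Real.pi * th i : ℝ) : ℂ) * Complex.I)

lemma norm_u (i : ℕ) : ‖u i‖ = 1 := Complex.norm_exp_ofReal_mul_I _

lemma u_ne (i : ℕ) : u i ≠ 0 := Complex.exp_ne_zero _

lemma u_sq (i : ℕ) : u (2 * i) ^ 2 = u i := by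
  unfold u
  rw [← Complex.exp_nat_mul, th_even]
  congr 1
  push_cast
  ring

lemma u_odd (i : ℕ) : u (2 * i + 1) = -u (2 * i) := by
  unfold u
  rw [th_odd, th_even, ← Complex.exp_add_pi_mul_I]
  congr 1
  push_cast
  ring

lemma conj_u (i : ℕ) : (starRingEnd ℂ) (u i) = (u i)⁻¹ := by
  rw [Complex.inv_def, Complex.normSq_eq_norm_sq, norm_u]; simp

lemma u_sq' (i : ℕ) : u i ^ 2 = u (i / 2) := by
  rcases Nat.even_or_odd' i with ⟨k, rfl | rfl⟩
  · rw [u_sq]; congr 1; omega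
  · rw [u_odd, neg_sq, u_sq]; congr 1; omega

lemma u_inj : Function.Injective u := by
  have key : ∀ n i j : ℕ, i + j = n → u i = u j → i = j := by
    intro n
    induction n using Nat.strong_induction_on with
    | _ n ih =>
      intro i j hn h
      rcases Nat.eq_zero_or_pos n with h0 | h0
      · omega
      have h2 : u (i / 2) = u (j / 2) := by rw [← u_sq', ← u_sq', h]
      have h3 : i / 2 = j / 2 := ih (i / 2 + j / 2) (by omega) _ _ rfl h2
      have hneg : ∀ k, u (2 * k + 1) ≠ u (2 * k) := by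
        intro k hk
        rw [u_odd] at hk
        exact u_ne (2 * k) (by linear_combination (-1 / 2 : ℂ) * hk)
      rcases Nat.even_or_odd' i with ⟨a, rfl | rfl⟩ <;>
        rcases Nat.even_or_odd' j with ⟨b, rfl | rfl⟩
      · omega
      · obtain rfl : a = b := by omega
        exact absurd h.symm (hneg a)
      · obtain rfl : a = b := by omega
        exact absurd h (hneg a)
      · omega
  exact fun i j h => key _ i j rfl h

lemma sum_Ico_double (f : ℕ → ℂ) (A B : ℕ) (h : A ≤ B) :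
    ∑ i ∈ Ico (2 * A) (2 * B), f i = ∑ i ∈ Ico A B, (f (2 * i) + f (2 * i + 1)) := by
  induction B, h using Nat.le_induction with
  | base => simp
  | succ B h ih =>
    rw [sum_Ico_succ_top h, ← ih, show 2 * (B + 1) = 2 * B + 1 + 1 by ring,
      sum_Ico_succ_top (by omega), sum_Ico_succ_top (by omega), add_assoc]

/-- exponential sums over the points -/
noncomputable def W (a t : ℕ) (d : ℤ) : ℂ := ∑ i ∈ Ico a t, u i ^ d

lemma W_double_odd (A B : ℕ) (h : A ≤ B) (d : ℤ) (hd : Odd d) : W (2 * A) (2 * B) d = 0 := by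
  unfold W
  rw [sum_Ico_double _ _ _ h]
  refine sum_eq_zero fun i _ => ?_
  rw [u_odd, hd.neg_zpow, add_neg_cancel]

lemma W_double_even (A B : ℕ) (h : A ≤ B) (d : ℤ) : W (2 * A) (2 * B) (2 * d) = 2 * W A B d := by
  unfold W
  rw [sum_Ico_double _ _ _ h, mul_sum]
  refine sum_congr rfl fun i _ => ?_
  rw [u_odd, (even_two_mul d).neg_zpow, zpow_mul, ← u_sq i, two_mul (_ ^ d)]
  norm_cast

lemma norm_W_le (a t : ℕ) (d : ℤ) : ‖W a t d‖ ≤ ((t - a : ℕ) : ℝ) := by
  unfold W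
  refine (norm_sum_le _ _).trans ?_
  simp [norm_zpow, norm_u]

lemma W_zero (a t : ℕ) : W a t 0 = ((t - a : ℕ) : ℂ) := by simp [W]

lemma W_full (m : ℕ) : ∀ (a : ℕ) (d : ℤ), ¬ (2 : ℤ) ^ m ∣ d →
    W (2 ^ m * a) (2 ^ m * (a + 1)) d = 0 := by
  induction m with
  | zero => intro a d h; simp at h
  | succ m ih =>
    intro a d h
    have e1 : 2 ^ (m + 1) * a = 2 * (2 ^ m * a) := by ring
    have e2 : 2 ^ (m + 1) * (a + 1) = 2 * (2 ^ m * (a + 1)) := by ring
    have hle : 2 ^ m * a ≤ 2 ^ m * (a + 1) := Nat.mul_le_mul_left _ (by omega)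
    rw [e1, e2]
    rcases Int.even_or_odd' d with ⟨d', rfl | rfl⟩
    · rw [W_double_even _ _ hle, ih a d', mul_zero]
      intro h'
      apply h
      rw [pow_succ, mul_comm]
      exact mul_dvd_mul_left 2 h'
    · exact W_double_odd _ _ hle _ (odd_two_mul_add_one d')

/-- the dyadic majorant -/
noncomputable def V (m : ℕ) (d : ℤ) : ℝ :=
  ∑ e ∈ range (m + 1), if (2 : ℤ) ^ e ∣ d then (2 : ℝ) ^ e else 0

lemma V_succ_even (m : ℕ) (d : ℤ) : V (m + 1) (2 * d) = 1 + 2 * V m d := by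
  unfold V
  rw [sum_range_succ', mul_sum, add_comm]
  congr 1
  · simp
  · refine sum_congr rfl fun e _ => ?_
    have : (2 : ℤ) ^ (e + 1) ∣ 2 * d ↔ (2 : ℤ) ^ e ∣ d := by
      rw [pow_succ, mul_comm]
      exact mul_dvd_mul_iff_left (by norm_num)
    simp only [this]
    split_ifs
    · ring
    · ring

lemma one_le_V (m : ℕ) (d : ℤ) : 1 ≤ V m d := by
  unfold V
  rw [sum_range_succ']
  have : 0 ≤ ∑ e ∈ range m, (if (2 : ℤ) ^ (e + 1) ∣ d then (2 : ℝ) ^ (e + 1) else 0) :=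
    sum_nonneg fun e _ => by split_ifs <;> positivity
  simp only [pow_zero, one_dvd, if_true]
  linarith

lemma norm_W_le_V (m : ℕ) : ∀ (a t : ℕ) (d : ℤ), 2 ^ m * a ≤ t → t ≤ 2 ^ m * (a + 1) →
    ‖W (2 ^ m * a) t d‖ ≤ V m d := by
  induction m with
  | zero =>
    intro a t d h1 h2
    refine (norm_W_le _ _ _).trans (le_trans ?_ (one_le_V 0 d))
    norm_cast
    simp at h1 h2 ⊢
    omega
  | succ m ih =>
    intro a t d h1 h2
    have e1 : 2 ^ (m + 1) * a = 2 * (2 ^ m * a) := by ring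
    have e2 : 2 ^ (m + 1) * (a + 1) = 2 * (2 ^ m * (a + 1)) := by ring
    rw [e1] at h1 ⊢
    rw [e2] at h2
    have h3 : 2 ^ m * a ≤ t / 2 := by omega
    have h4 : t / 2 ≤ 2 ^ m * (a + 1) := by omega
    have hsplit : W (2 * (2 ^ m * a)) t d =
        W (2 * (2 ^ m * a)) (2 * (t / 2)) d + W (2 * (t / 2)) t d := by
      unfold W
      rw [sum_Ico_consecutive _ (by omega) (by omega)]
    have hlast : ‖W (2 * (t / 2)) t d‖ ≤ 1 := by
      refine (norm_W_le _ _ _).trans ?_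
      norm_cast
      omega
    rw [hsplit]
    refine (norm_add_le _ _).trans ?_
    rcases Int.even_or_odd' d with ⟨d', rfl | rfl⟩
    · rw [W_double_even _ _ h3, V_succ_even, norm_mul]
      have := ih a (t / 2) d' h3 h4
      simp only [Complex.norm_ofNat]
      linarith
    · rw [W_double_odd _ _ h3 _ (odd_two_mul_add_one d'), norm_zero]
      linarith [one_le_V (m + 1) (2 * d' + 1)]

/-- geometric sums along a residue class -/
lemma sum_class_le (s : Finset ℕ) (r : ℝ) (hr0 : 0 ≤ r) (hr1 : r < 1) (q : ℕ) (hq : 0 < q) (j : ℕ) :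
    ∑ l ∈ s, (if (q : ℤ) ∣ (j : ℤ) - l then r ^ l else 0) ≤ 1 / (1 - r ^ q) := by
  classical
  have hρ0 : 0 ≤ r ^ q := pow_nonneg hr0 _
  have hρ1 : r ^ q < 1 := pow_lt_one₀ hr0 hr1 hq.ne'
  rw [← sum_filter]
  set s' := s.filter (fun l : ℕ => (q : ℤ) ∣ (j : ℤ) - l) with hs'
  have hinj : Set.InjOn (fun l : ℕ => l / q) (s' : Set ℕ) := by
    intro a ha b hb hab
    have ha' : (q : ℤ) ∣ (j : ℤ) - a := (mem_filter.mp (mem_coe.mp ha)).2
    have hb' : (q : ℤ) ∣ (j : ℤ) - b := (mem_filter.mp (mem_coe.mp hb)).2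
    have hd : (q : ℤ) ∣ (b : ℤ) - a := by
      have := dvd_sub ha' hb'
      rwa [show (j : ℤ) - a - (j - b) = b - a by ring] at this
    have hmod : a % q = b % q := (Nat.modEq_iff_dvd.mpr hd)
    have h1 := Nat.div_add_mod a q
    have h2 := Nat.div_add_mod b q
    simp only at hab
    rw [hab, hmod] at h1
    omega
  calc ∑ l ∈ s', r ^ l ≤ ∑ l ∈ s', (r ^ q) ^ (l / q) := by
        refine sum_le_sum fun l _ => ?_
        rw [← pow_mul]
        exact pow_le_pow_of_le_one hr0 hr1.le (Nat.mul_div_le l q)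
    _ = ∑ i ∈ s'.image (fun l => l / q), (r ^ q) ^ i := by
        rw [sum_image hinj]
    _ ≤ ∑' i : ℕ, (r ^ q) ^ i :=
        (summable_geometric_of_lt_one hρ0 hρ1).sum_le_tsum _ (fun i _ => pow_nonneg hρ0 _)
    _ = 1 / (1 - r ^ q) := by rw [tsum_geometric_of_lt_one hρ0 hρ1, one_div]

lemma one_sub_pow_le (r : ℝ) (hr0 : 0 ≤ r) (hr1 : r ≤ 1) (e k : ℕ) :
    1 - r ^ 2 ^ (e + k) ≤ 2 ^ k * (1 - r ^ 2 ^ e) := by
  induction k with
  | zero => simp
  | succ k ih =>
    have h0 : 0 ≤ r ^ 2 ^ (e + k) := pow_nonneg hr0 _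
    have h1 : r ^ 2 ^ (e + k) ≤ 1 := pow_le_one₀ hr0 hr1
    have : r ^ 2 ^ (e + (k + 1)) = (r ^ 2 ^ (e + k)) ^ 2 := by
      rw [← pow_mul, ← add_assoc, pow_succ]
    rw [this, pow_succ 2 k]
    nlinarith

end Pool.Agent.H954Z.Rep
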