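import Pool.Agent.H954Z.RepAbs
import Pool.Agent.H954Z.RepVdC

/-!
# Representing systems of kernels on dyadic circles
-/

set_option autoImplicit false

namespace Pool.Agent.H954Z.Rep

open Finset Filter Topology

/-- Taylor coefficients of a partial sum over one circle. -/
noncomputable def beta (r : ℝ) (m j t l : ℕ) : ℂ :=
  ((r ^ l / (2 ^ m * r ^ j) : ℝ) : ℂ) * W (2 ^ m) t ((j : ℤ) - l)

lemma inv_pow_le (r : ℝ) (hr : 1 / 2 ≤ r) (j : ℕ) : 1 / r ^ j ≤ 2 ^ j := by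
  have h0 : 0 < r := by linarith
  rw [div_le_iff₀ (pow_pos h0 j), ← mul_pow]
  exact one_le_pow₀ (by linarith)

lemma norm_beta (r : ℝ) (hr : 1 / 2 ≤ r) (m j t l : ℕ) :
    ‖beta r m j t l‖ = r ^ l / (2 ^ m * r ^ j) * ‖W (2 ^ m) t ((j : ℤ) - l)‖ := by
  have h0 : 0 < r := by linarith
  unfold beta
  rw [norm_mul, Complex.norm_real, Real.norm_of_nonneg (by positivity)]

lemma norm_W_le_pow (m t : ℕ) (ht : t ≤ 2 ^ (m + 1)) (d : ℤ) : ‖W (2 ^ m) t d‖ ≤ 2 ^ m := by
  refine (norm_W_le _ _ _).trans ?_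
  have : t - 2 ^ m ≤ 2 ^ m := by rw [pow_succ] at ht; omega
  exact_mod_cast this

lemma norm_beta_le_ratio (r : ℝ) (hr : 1 / 2 ≤ r) (m j t l : ℕ) (ht : t ≤ 2 ^ (m + 1)) :
    ‖beta r m j t l‖ ≤ r ^ l / r ^ j := by
  have h0 : 0 < r := by linarith
  rw [norm_beta r hr]
  calc _ ≤ r ^ l / (2 ^ m * r ^ j) * 2 ^ m :=
        mul_le_mul_of_nonneg_left (norm_W_le_pow m t ht _) (by positivity)
    _ = _ := by field_simp

lemma ratio_le (r : ℝ) (hr : 1 / 2 ≤ r) (j l : ℕ) : r ^ l / r ^ j ≤ 2 ^ j * r ^ l := by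
  have h0 : 0 < r := by linarith
  rw [div_eq_mul_one_div, mul_comm]
  exact mul_le_mul_of_nonneg_right (inv_pow_le r hr j) (by positivity)

lemma beta_sup (r : ℝ) (hr : 1 / 2 ≤ r) (hr1 : r ≤ 1) (m j t l : ℕ) (ht : t ≤ 2 ^ (m + 1)) :
    ‖beta r m j t l‖ ≤ 2 ^ j := by
  have h0 : 0 < r := by linarith
  refine (norm_beta_le_ratio r hr m j t l ht).trans ((ratio_le r hr j l).trans ?_)
  have : r ^ l ≤ 1 := pow_le_one₀ h0.le hr1
  have h2 : (0 : ℝ) < 2 ^ j := by positivity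
  nlinarith

lemma beta_l1 (r : ℝ) (hr : 1 / 2 ≤ r) (hr1 : r < 1) (m j t : ℕ) (ht0 : 2 ^ m ≤ t)
    (ht : t ≤ 2 ^ (m + 1)) (η : ℝ) (hη : 0 < η) (hρ : r ^ 2 ^ m ≤ 1 - η) (s : Finset ℕ) :
    ∑ l ∈ s, ‖beta r m j t l‖ ≤ 2 ^ j * ((m + 1) / η) := by
  have h0 : 0 < r := by linarith
  have h1 : ∀ l, ‖beta r m j t l‖ ≤ 2 ^ j * ∑ e ∈ range (m + 1), (2 : ℝ) ^ e / 2 ^ m *
      (if (((2 ^ e : ℕ) : ℤ)) ∣ (j : ℤ) - l then r ^ l else 0) := by
    intro l
    rw [norm_beta r hr]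
    have hW : ‖W (2 ^ m) t ((j : ℤ) - l)‖ ≤ V m ((j : ℤ) - l) := by
      have := norm_W_le_V m 1 t ((j : ℤ) - l) (by simpa using ht0) (by rw [pow_succ] at ht; omega)
      simpa using this
    have e1 : ∑ e ∈ range (m + 1), (2 : ℝ) ^ e / 2 ^ m *
        (if (((2 ^ e : ℕ) : ℤ)) ∣ (j : ℤ) - l then r ^ l else 0) =
        r ^ l / 2 ^ m * V m ((j : ℤ) - l) := by
      unfold V
      rw [mul_sum]
      refine sum_congr rfl fun e _ => ?_
      push_cast
      split_ifs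
      · ring
      · ring
    rw [e1]
    have hV : 0 ≤ V m ((j : ℤ) - l) := le_trans zero_le_one (one_le_V _ _)
    calc _ ≤ r ^ l / (2 ^ m * r ^ j) * V m ((j : ℤ) - l) :=
          mul_le_mul_of_nonneg_left hW (by positivity)
      _ = (1 / r ^ j) * (r ^ l / 2 ^ m * V m ((j : ℤ) - l)) := by field_simp
      _ ≤ _ := mul_le_mul_of_nonneg_right (inv_pow_le r hr j) (by positivity)
  refine (sum_le_sum fun l _ => h1 l).trans ?_
  rw [← mul_sum, sum_comm]
  refine mul_le_mul_of_nonneg_left ?_ (by positivity)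
  calc _ ≤ ∑ e ∈ range (m + 1), 1 / η := by
        refine sum_le_sum fun e he => ?_
        rw [← mul_sum]
        have h2 := sum_class_le s r h0.le hr1 (2 ^ e) (by positivity) j
        obtain ⟨k, rfl⟩ : ∃ k, m = e + k := ⟨m - e, by have := mem_range.mp he; omega⟩
        have h3 := one_sub_pow_le r h0.le hr1.le e k
        have h4 : 0 < 1 - r ^ 2 ^ e := sub_pos.mpr (pow_lt_one₀ h0.le hr1 (by positivity))
        refine (mul_le_mul_of_nonneg_left h2 (by positivity)).trans ?_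
        rw [pow_add, div_mul_div_comm, div_le_div_iff₀ (by positivity) hη]
        have h5 : η ≤ 2 ^ k * (1 - r ^ 2 ^ e) := by linarith
        have h6 : (0 : ℝ) < 2 ^ e := by positivity
        nlinarith
    _ = _ := by simp; ring

/-- error coefficients of a full circle -/
noncomputable def dd (r : ℝ) (m j l : ℕ) : ℂ :=
  beta r m j (2 ^ (m + 1)) l - if l = j then 1 else 0

lemma norm_dd_le (r : ℝ) (hr : 1 / 2 ≤ r) (m j l : ℕ) (hj : j < 2 ^ m) :
    ‖dd r m j l‖ ≤ if (((2 ^ m : ℕ) : ℤ) ∣ (j : ℤ) - l ∧ j < l) then r ^ l / r ^ j else 0 := by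
  have h0 : 0 < r := by linarith
  unfold dd
  by_cases hl : l = j
  · subst hl
    have : beta r m l (2 ^ (m + 1)) l = 1 := by
      unfold beta
      rw [sub_self, W_zero, show 2 ^ (m + 1) - 2 ^ m = 2 ^ m by rw [pow_succ]; omega]
      have h1 : (r : ℂ) ≠ 0 := by exact_mod_cast h0.ne'
      push_cast
      field_simp
    simp [this]
  · rw [if_neg hl, sub_zero]
    by_cases hd : ((2 ^ m : ℕ) : ℤ) ∣ (j : ℤ) - l
    · have hlt : j < l := by
        by_contra hc
        have h1 : (0 : ℤ) < (j : ℤ) - l := by omega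
        have h2 := Int.le_of_dvd h1 hd
        omega
      rw [if_pos ⟨hd, hlt⟩]
      exact norm_beta_le_ratio r hr m j _ l le_rfl
    · rw [if_neg (fun h => hd h.1)]
      unfold beta
      have := W_full m 1 ((j : ℤ) - l) (by exact_mod_cast hd)
      rw [mul_one, ← pow_succ] at this
      rw [this]
      simp

lemma dd_l1 (r : ℝ) (hr : 1 / 2 ≤ r) (hr1 : r < 1) (m j : ℕ) (hj : j < 2 ^ m)
    (η : ℝ) (hη : 0 < η) (hρ : r ^ 2 ^ m ≤ 1 - η) (s : Finset ℕ) :
    ∑ l ∈ s, ‖dd r m j l‖ ≤ 2 ^ j * (1 / η) := by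
  have h0 : 0 < r := by linarith
  have h2 := sum_class_le s r h0.le hr1 (2 ^ m) (by positivity) j
  calc _ ≤ ∑ l ∈ s, 2 ^ j * (if ((2 ^ m : ℕ) : ℤ) ∣ (j : ℤ) - l then r ^ l else 0) := by
        refine sum_le_sum fun l _ => (norm_dd_le r hr m j l hj).trans ?_
        split_ifs with h1 h3 h3
        · exact ratio_le r hr j l
        · exact absurd h1.1 h3
        · positivity
        · positivity
    _ ≤ 2 ^ j * (1 / (1 - r ^ 2 ^ m)) := by
        rw [← mul_sum]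
        exact mul_le_mul_of_nonneg_left h2 (by positivity)
    _ ≤ _ := by
        refine mul_le_mul_of_nonneg_left ?_ (by positivity)
        exact one_div_le_one_div_of_le hη (by linarith)

lemma dd_sup (r : ℕ → ℝ) (hr : ∀ m, 1 / 2 ≤ r m) (S : Finset ℕ) (j l : ℕ)
    (hj : ∀ m ∈ S, j < 2 ^ m) (η : ℝ) (hη : 0 < η) (hη1 : η ≤ 1)
    (hρ : ∀ m ∈ S, r m ^ 2 ^ m ≤ 1 - η) :
    ∑ m ∈ S, ‖dd (r m) m j l‖ ≤ 1 / η := by
  classical
  have hρ0 : 0 ≤ 1 - η := by linarith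
  have hρ1 : 1 - η < 1 := by linarith
  set S' := S.filter (fun m => 2 ^ m ∣ l - j ∧ j < l) with hS'
  have hinj : Set.InjOn (fun m : ℕ => (l - j) / 2 ^ m) (S' : Set ℕ) := by
    intro a ha b hb hab
    obtain ⟨-, ha1, hl⟩ := mem_filter.mp (mem_coe.mp ha)
    obtain ⟨-, hb1, -⟩ := mem_filter.mp (mem_coe.mp hb)
    have h1 := Nat.mul_div_cancel' ha1
    have h2 := Nat.mul_div_cancel' hb1
    simp only at hab
    rw [hab, ← h2] at h1
    rw [h2] at h1
    have h3 : 0 < (l - j) / 2 ^ b := Nat.div_pos (Nat.le_of_dvd (by omega) hb1) (by positivity)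
    have h4 : 2 ^ a = 2 ^ b := Nat.eq_of_mul_eq_mul_right h3 (h1.trans h2.symm)
    exact Nat.pow_right_injective le_rfl h4
  calc _ ≤ ∑ m ∈ S, (if (2 ^ m ∣ l - j ∧ j < l) then (1 - η) ^ ((l - j) / 2 ^ m) else 0) := by
        refine sum_le_sum fun m hm => (norm_dd_le (r m) (hr m) m j l (hj m hm)).trans ?_
        have h0 : 0 < r m := by linarith [hr m]
        split_ifs with h1 h3 h3
        · have h4 := Nat.mul_div_cancel' h3.1
          rw [div_eq_mul_inv, ← pow_sub₀ _ h0.ne' h1.2.le]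
          conv_lhs => rw [← h4, pow_mul]
          exact pow_le_pow_left₀ (by positivity) (hρ m hm) _
        · exfalso
          apply h3
          refine ⟨?_, h1.2⟩
          have h5 : ((2 ^ m : ℕ) : ℤ) ∣ ((l - j : ℕ) : ℤ) := by
            rw [Nat.cast_sub h1.2.le, ← neg_sub]
            exact (dvd_neg).mpr h1.1
          exact_mod_cast h5
        · positivity
        · exact le_rfl
    _ = ∑ m ∈ S', (1 - η) ^ ((l - j) / 2 ^ m) := by rw [hS', sum_filter]
    _ = ∑ i ∈ S'.image (fun m => (l - j) / 2 ^ m), (1 - η) ^ i := by rw [sum_image hinj]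
    _ ≤ ∑' i : ℕ, (1 - η) ^ i :=
        (summable_geometric_of_lt_one hρ0 hρ1).sum_le_tsum _ (fun i _ => pow_nonneg hρ0 _)
    _ = 1 / η := by rw [tsum_geometric_of_lt_one hρ0 hρ1, one_div]; congr 1; ring

/-- the points: `2^m` equally spaced points on the circle of radius `r m`, in van der Corput order -/
noncomputable def pts (r : ℕ → ℝ) (n : ℕ) : ℂ := (r (Nat.log 2 n) : ℂ) * u n

/-- the coefficients producing the monomial of degree `j` -/
noncomputable def coef (r : ℕ → ℝ) (j n : ℕ) : ℂ :=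
  ((1 / (2 ^ (Nat.log 2 n) * r (Nat.log 2 n) ^ j) : ℝ) : ℂ) * u n ^ j

lemma sum_circle (r : ℕ → ℝ) (m j t l : ℕ) (ht : t ≤ 2 ^ (m + 1)) :
    ∑ n ∈ Ico (2 ^ m) t, coef r j n * (starRingEnd ℂ) (pts r n) ^ l = beta (r m) m j t l := by
  unfold beta W
  rw [mul_sum]
  refine sum_congr rfl fun n hn => ?_
  have hlog : Nat.log 2 n = m :=
    Nat.log_eq_of_pow_le_of_lt_pow (mem_Ico.mp hn).1 (lt_of_lt_of_le (mem_Ico.mp hn).2 ht)
  unfold coef pts
  rw [hlog, map_mul, conj_u, Complex.conj_ofReal, zpow_sub₀ (u_ne n), zpow_natCast, zpow_natCast,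
    mul_pow, inv_pow]
  push_cast
  ring

lemma sum_circles (r : ℕ → ℝ) (M j l m1 : ℕ) (h : M ≤ m1) :
    ∑ n ∈ Ico (2 ^ M) (2 ^ m1), coef r j n * (starRingEnd ℂ) (pts r n) ^ l =
      ∑ m ∈ Ico M m1, beta (r m) m j (2 ^ (m + 1)) l := by
  induction m1, h using Nat.le_induction with
  | base => simp
  | succ m1 h ih =>
    rw [sum_Ico_succ_top h, ← ih, ← sum_circle r m1 j _ l le_rfl, sum_Ico_consecutive]
    · exact Nat.pow_le_pow_right (by norm_num) h
    · exact Nat.pow_le_pow_right (by norm_num) (by omega)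

variable {X : Type*} [NormedAddCommGroup X] [NormedSpace ℂ X]

lemma norm_le_of_hasSum (e : ℕ → X) (b : ℕ → ℂ) (x : X) (C : ℝ)
    (hx : HasSum (fun l => b l • e l) x) (h : ∀ s : Finset ℕ, ‖∑ l ∈ s, b l • e l‖ ≤ C) :
    ‖x‖ ≤ C :=
  le_of_tendsto' (hx.tendsto_sum_nat.norm) fun n => h (range n)

theorem repr_main (e : ℕ → X) (γ : ℝ) (hγ0 : 0 ≤ γ) (hγ1 : γ ≤ 1)
    (hγ : ∀ (s : Finset ℕ) (b : ℕ → ℂ) (A B : ℝ), 0 ≤ A → (∀ l ∈ s, ‖b l‖ ≤ A) →
      ∑ l ∈ s, ‖b l‖ ≤ B → ‖∑ l ∈ s, b l • e l‖ ≤ A ^ γ * B ^ (1 - γ))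
    (r : ℕ → ℝ) (hr : ∀ m, 1 / 2 ≤ r m) (hr1 : ∀ m, r m < 1)
    (η : ℕ → ℝ) (hη : ∀ M, 0 < η M) (hη1 : ∀ M, η M ≤ 1)
    (hρ : ∀ M m, m ≤ 2 * M → r m ^ 2 ^ m ≤ 1 - η M)
    (hlim : Tendsto (fun M : ℕ => 1 / (η M * (M : ℝ) ^ γ)) atTop (𝓝 0))
    (k : ℕ → X) (hk : ∀ n, HasSum (fun l => (starRingEnd ℂ) (pts r n) ^ l • e l) (k n))
    (f : X) (hf : f ∈ (Submodule.span ℂ (Set.range e)).topologicalClosure) :
    ∃ c : ℕ → ℂ, Tendsto (fun N => ∑ n ∈ range N, c n • k n) atTop (𝓝 f) := by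
  refine repr_of_good k e (fun M => 2 ^ M) (fun M => 2 ^ (2 * M))
    (fun M t => ((Nat.log 2 t - M : ℕ) : ℝ) / M) ?_ ?_ ?_ ?_ f hf
  · exact tendsto_pow_atTop_atTop_of_one_lt (by norm_num)
  · filter_upwards [eventually_ge_atTop 1] with M hM
    have hM' : (0 : ℝ) < M := by exact_mod_cast hM
    refine ⟨Nat.pow_lt_pow_right (by norm_num) (by omega), ?_, ?_⟩
    · rw [Nat.log_pow (by norm_num), show 2 * M - M = M by omega, div_self hM'.ne']
    · intro t h1 h2
      have h3 : Nat.log 2 t ≤ 2 * M := by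
        have := Nat.log_mono_right (b := 2) h2
        rwa [Nat.log_pow (by norm_num)] at this
      rw [abs_of_nonneg (by positivity), div_le_one hM']
      exact_mod_cast (by omega)
  · intro n
    refine mem_closure_of_tendsto (hk n).tendsto_sum_nat (Eventually.of_forall fun N => ?_)
    exact Submodule.sum_mem _ fun l _ =>
      Submodule.smul_mem _ _ (Submodule.subset_span ⟨l, rfl⟩)
  · intro j ε hε
    have hl2 : Tendsto (fun M : ℕ => (2 : ℝ) ^ (j + 2) * (1 / (η M * (M : ℝ) ^ γ))) atTop (𝓝 0) := by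
      simpa using hlim.const_mul ((2 : ℝ) ^ (j + 2))
    filter_upwards [eventually_ge_atTop (j + 1), hl2.eventually (ge_mem_nhds hε)] with M hM hMε
    have hM' : (0 : ℝ) < M := by exact_mod_cast (by omega : 0 < M)
    have hM1 : (1 : ℝ) ≤ M := by exact_mod_cast (by omega : 1 ≤ M)
    refine ⟨fun n => (1 / (M : ℂ)) * coef r j n, fun t h1 h2 => ?_⟩
    set m1 := Nat.log 2 t with hm1
    have ht0 : t ≠ 0 := by have : 0 < 2 ^ M := by positivity
                           omega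
    have h3 : m1 ≤ 2 * M := by
      have := Nat.log_mono_right (b := 2) h2
      rwa [Nat.log_pow (by norm_num)] at this
    have h4 : M ≤ m1 := by
      have := Nat.log_mono_right (b := 2) h1
      rwa [Nat.log_pow (by norm_num)] at this
    have h5 : 2 ^ m1 ≤ t := Nat.pow_log_le_self 2 ht0
    have h6 : t ≤ 2 ^ (m1 + 1) := (Nat.lt_pow_succ_log_self (by norm_num) t).le
    let b : ℕ → ℂ := fun l =>
      (1 / (M : ℂ)) * (∑ m ∈ Ico M m1, dd (r m) m j l + beta (r m1) m1 j t l)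
    have hs1 : HasSum (fun l => ∑ n ∈ Ico (2 ^ M) t,
        ((1 / (M : ℂ)) * coef r j n) • ((starRingEnd ℂ) (pts r n) ^ l • e l))
        (∑ n ∈ Ico (2 ^ M) t, ((1 / (M : ℂ)) * coef r j n) • k n) :=
      hasSum_sum fun n _ => (hk n).const_smul _
    have hs2 : HasSum (fun l => if l = j then
        ((((m1 - M : ℕ) : ℝ) / M : ℝ) : ℂ) • e j else 0)
        (((((m1 - M : ℕ) : ℝ) / M : ℝ) : ℂ) • e j) := hasSum_ite_eq j _
    have hs3 : HasSum (fun l => b l • e l)
        (∑ n ∈ Ico (2 ^ M) t, ((1 / (M : ℂ)) * coef r j n) • k n -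
          ((((m1 - M : ℕ) : ℝ) / M : ℝ) : ℂ) • e j) := by
      convert hs1.sub hs2 using 1
      funext l
      simp only [smul_smul, ← sum_smul, mul_assoc, ← mul_sum]
      rw [← sum_Ico_consecutive _ (Nat.pow_le_pow_right (by norm_num) h4) h5, sum_circles r M j l m1 h4,
        sum_circle r m1 j t l h6]
      simp only [b, dd, sum_sub_distrib]
      by_cases hl : l = j
      · subst hl
        simp only [if_true, ← sub_smul, sum_const, Nat.card_Ico]
        congr 1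
        push_cast
        simp only [nsmul_eq_mul]
        ring
      · simp [hl]
    have hj : ∀ m ∈ Ico M m1, j < 2 ^ m := fun m hm =>
      lt_of_lt_of_le (by have := (mem_Ico.mp hm).1; omega : j < m) (Nat.lt_two_pow_self).le
    have hρ' : ∀ m ∈ Ico M m1, r m ^ 2 ^ m ≤ 1 - η M := fun m hm =>
      hρ M m (by have := (mem_Ico.mp hm).2; omega)
    have hnb : ∀ l, ‖b l‖ ≤ 1 / (M : ℝ) *
        (∑ m ∈ Ico M m1, ‖dd (r m) m j l‖ + ‖beta (r m1) m1 j t l‖) := by
      intro l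
      simp only [b]
      rw [norm_mul]
      refine mul_le_mul (by simp) ?_ (norm_nonneg _) (by positivity)
      exact (norm_add_le _ _).trans (add_le_add_left (norm_sum_le _ _) _)
    have hηM := hη M
    have hηM1 := hη1 M
    have h2j : (1 : ℝ) ≤ 2 ^ j := one_le_pow₀ (by norm_num)
    have hinv : 1 ≤ 1 / η M := by rw [le_div_iff₀ hηM]; linarith
    refine norm_le_of_hasSum e b _ _ hs3 fun s => ?_
    refine (hγ s b (2 ^ (j + 2) / η M / M) (2 ^ (j + 2) / η M) (by positivity) ?_ ?_).trans ?_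
    · intro l _
      refine (hnb l).trans ?_
      have a1 := dd_sup r hr (Ico M m1) j l hj (η M) hηM hηM1 hρ'
      have a2 := beta_sup (r m1) (hr m1) (hr1 m1).le m1 j t l h6
      have a3 : ∑ m ∈ Ico M m1, ‖dd (r m) m j l‖ + ‖beta (r m1) m1 j t l‖ ≤
          2 ^ (j + 2) / η M := by
        rw [pow_add, div_eq_mul_one_div _ (η M)]
        nlinarith
      calc _ ≤ 1 / (M : ℝ) * (2 ^ (j + 2) / η M) := mul_le_mul_of_nonneg_left a3 (by positivity)
        _ = _ := by ring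
    · refine (sum_le_sum fun l _ => hnb l).trans ?_
      rw [← mul_sum, sum_add_distrib, sum_comm]
      have a1 : ∑ m ∈ Ico M m1, ∑ l ∈ s, ‖dd (r m) m j l‖ ≤ M * (2 ^ j * (1 / η M)) := by
        calc _ ≤ ∑ m ∈ Ico M m1, (2 : ℝ) ^ j * (1 / η M) := sum_le_sum fun m hm =>
              dd_l1 (r m) (hr m) (hr1 m) m j (hj m hm) (η M) hηM (hρ' m hm) s
          _ ≤ _ := by
              rw [sum_const, Nat.card_Ico, nsmul_eq_mul]
              have hc : ((m1 - M : ℕ) : ℝ) ≤ M := by exact_mod_cast (by omega)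
              exact mul_le_mul_of_nonneg_right hc (by positivity)
      have a2 := beta_l1 (r m1) (hr m1) (hr1 m1) m1 j t h5 h6 (η M) hηM (hρ M m1 h3) s
      have a3 : ((m1 : ℝ) + 1) / η M ≤ 3 * M * (1 / η M) := by
        rw [div_eq_mul_one_div]
        refine mul_le_mul_of_nonneg_right ?_ (by positivity)
        have : (m1 : ℝ) ≤ 2 * M := by exact_mod_cast h3
        linarith
      have a4 : (2 : ℝ) ^ j * (((m1 : ℝ) + 1) / η M) ≤ 2 ^ j * (3 * M * (1 / η M)) :=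
        mul_le_mul_of_nonneg_left a3 (by positivity)
      calc _ ≤ 1 / (M : ℝ) * (M * (2 ^ j * (1 / η M)) + 2 ^ j * (3 * M * (1 / η M))) :=
            mul_le_mul_of_nonneg_left (by linarith) (by positivity)
        _ = _ := by rw [pow_add]; field_simp; norm_num
    · refine le_of_eq_of_le ?_ hMε
      have hK : (0 : ℝ) < 2 ^ (j + 2) / η M := by positivity
      rw [Real.div_rpow hK.le hM'.le, div_mul_eq_mul_div, ← Real.rpow_add hK]
      simp only [add_sub_cancel, Real.rpow_one]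
      field_simp

end Pool.Agent.H954Z.Rep
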