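import Pool.Agent.H954Z.HardyB
import Pool.Agent.H954Z.HardyDefs
import Pool.Agent.H954Z.RepMain

/-!
# A representing system of Cauchy kernels of zero upper density
-/

set_option autoImplicit false

namespace Pool.Agent.H954Z.Hardy

open Finset Filter Topology MeasureTheory AddCircle
open Pool.Agent.H954Z.HardyDefs Pool.Agent.H954Z.Rep
open scoped ENNReal

lemma integralMean_eq [Fact (0 < 2 * Real.pi)] (p : ℝ) (hp : 0 < p) (g : ℂ → ℂ) (r : ℝ) :
    integralMean p g r = eLpNorm (fun t : AddCircle (2 * Real.pi) => g (r * fourier 1 t))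
      (ENNReal.ofReal p) haarAddCircle := by
  rw [eLpNorm_eq_lintegral_rpow_enorm_toReal (by simpa using hp) ENNReal.ofReal_ne_top,
    ENNReal.toReal_ofReal hp.le]
  unfold integralMean
  congr 1
  have h1 := AddCircle.lintegral_preimage (2 * Real.pi) 0
    (fun t : AddCircle (2 * Real.pi) => ‖g (r * fourier 1 t)‖ₑ ^ p)
  rw [zero_add, volume_eq_smul_haarAddCircle, lintegral_smul_measure, smul_eq_mul] at h1
  have h2 : ∀ θ : ℝ, fourier 1 (θ : AddCircle (2 * Real.pi)) = Complex.exp (θ * Complex.I) := by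
    intro θ
    rw [fourier_coe_apply]
    congr 1
    have h2 : (Real.pi : ℂ) ≠ 0 := by exact_mod_cast Real.pi_ne_zero
    push_cast
    field_simp
  simp only [h2] at h1
  rw [h1, mul_comm, ENNReal.mul_div_cancel_right (by simpa using Real.pi_pos) ENNReal.ofReal_ne_top]

lemma integralMean_eq_LL [Fact (0 < 2 * Real.pi)] (p : ℝ) (hp : 0 < p) [Fact (1 ≤ ENNReal.ofReal p)]
    {g : ℂ → ℂ} {a : ℕ → ℂ} (h : PS g a 1) (r : ℝ) (h0 : 0 ≤ r) (h1 : r < 1) :
    integralMean p g r =
      ENNReal.ofReal ‖LL (2 * Real.pi) (ENNReal.ofReal p) (circ (2 * Real.pi) g r)‖ := by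
  rw [integralMean_eq p hp, ← eLpNorm_eq_LL]
  congr 1
  funext t
  exact ((h.hasSum_circ _ (norm_ofReal_lt h0 h1)).2 t).symm

lemma kernel_PS (lam : ℂ) (h : ‖lam‖ < 1) :
    PS (cauchyKernel lam) (fun l => (starRingEnd ℂ) lam ^ l) (2 / (1 + ‖lam‖)) := by
  intro z hz
  have h0 := norm_nonneg lam
  rw [lt_div_iff₀ (by positivity)] at hz
  have h1 : ‖(starRingEnd ℂ) lam * z‖ < 1 := by
    rw [norm_mul, Complex.norm_conj]
    nlinarith [norm_nonneg z]
  have := hasSum_geometric_of_norm_lt_one h1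
  simp only [mul_pow] at this
  unfold cauchyKernel
  rwa [one_div]

lemma one_lt_rad (lam : ℂ) (h : ‖lam‖ < 1) : 1 < 2 / (1 + ‖lam‖) := by
  rw [lt_div_iff₀ (by positivity)]; linarith

/-- slowly decaying parameters -/
noncomputable def del (m : ℕ) : ℝ := 1 / (2 + Real.log (m + 1))

lemma log_nonneg' (m : ℕ) : 0 ≤ Real.log ((m : ℝ) + 1) :=
  Real.log_nonneg (by have : (0 : ℝ) ≤ m := Nat.cast_nonneg m
                      linarith)

lemma del_pos (m : ℕ) : 0 < del m := by
  have := log_nonneg' m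
  unfold del; positivity

lemma del_le (m : ℕ) : del m ≤ 1 / 2 :=
  one_div_le_one_div_of_le (by norm_num) (by linarith [log_nonneg' m])

lemma del_anti {m n : ℕ} (h : m ≤ n) : del n ≤ del m := by
  refine one_div_le_one_div_of_le (by linarith [log_nonneg' m]) ?_
  have : Real.log ((m : ℝ) + 1) ≤ Real.log ((n : ℝ) + 1) :=
    Real.log_le_log (by positivity) (by have : (m : ℝ) ≤ n := by exact_mod_cast h
                                        linarith)
  linarith

lemma del_tendsto : Tendsto del atTop (𝓝 0) := by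
  refine tendsto_const_nhds.div_atTop (tendsto_atTop_add_const_left _ _ ?_)
  exact Real.tendsto_log_atTop.comp (tendsto_atTop_add_const_right _ _ tendsto_natCast_atTop_atTop)

/-- the radii -/
noncomputable def rad (m : ℕ) : ℝ := 1 - del m / 2 ^ m

lemma rad_ge (m : ℕ) : 1 / 2 ≤ rad m := by
  unfold rad
  have h1 : del m / 2 ^ m ≤ del m := div_le_self (del_pos m).le (one_le_pow₀ (by norm_num))
  linarith [del_le m]

lemma rad_lt (m : ℕ) : rad m < 1 := by
  unfold rad
  have : 0 < del m / 2 ^ m := by have := del_pos m; positivity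
  linarith

lemma rad_pow (m : ℕ) : rad m ^ 2 ^ m ≤ 1 - del m / 2 := by
  have h0 : 0 ≤ rad m := by linarith [rad_ge m]
  have h1 : rad m ≤ Real.exp (-(del m / 2 ^ m)) := by
    have := Real.add_one_le_exp (-(del m / 2 ^ m))
    unfold rad; linarith
  have h2 : rad m ^ 2 ^ m ≤ Real.exp (-del m) := by
    refine (pow_le_pow_left₀ h0 h1 _).trans (le_of_eq ?_)
    rw [← Real.exp_nat_mul]
    congr 1
    push_cast
    field_simp
  refine h2.trans ?_
  have h3 := Real.add_one_le_exp (del m)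
  have h4 := del_pos m
  have h5 := del_le m
  rw [Real.exp_neg, inv_le_comm₀ (Real.exp_pos _) (by linarith)]
  refine le_trans ?_ h3
  rw [inv_le_iff_one_le_mul₀ (by linarith)]
  nlinarith

lemma lim_del (γ : ℝ) (hγ : 0 < γ) :
    Tendsto (fun M : ℕ => 1 / (del (2 * M) / 2 * (M : ℝ) ^ γ)) atTop (𝓝 0) := by
  have h1 : Tendsto (fun x : ℝ => Real.log x / x ^ γ) atTop (𝓝 0) :=
    (isLittleO_log_rpow_atTop hγ).tendsto_div_nhds_zero
  have h2 : Tendsto (fun x : ℝ => 1 / x ^ γ) atTop (𝓝 0) :=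
    tendsto_const_nhds.div_atTop (tendsto_rpow_atTop hγ)
  have h3 := ((h2.const_mul 8).add (h1.const_mul 2)).comp tendsto_natCast_atTop_atTop
  simp only [mul_zero, add_zero] at h3
  refine squeeze_zero' (Eventually.of_forall fun M => ?_) ?_ h3
  · have := del_pos (2 * M); positivity
  · filter_upwards [eventually_ge_atTop 1] with M hM
    have hM' : (1 : ℝ) ≤ M := by exact_mod_cast hM
    have hp : 0 < (M : ℝ) ^ γ := by positivity
    have hl := log_nonneg' (2 * M)
    have h4 : Real.log (((2 * M : ℕ) : ℝ) + 1) ≤ 2 + Real.log M := by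
      have h5 : Real.log (((2 * M : ℕ) : ℝ) + 1) ≤ Real.log (3 * M) :=
        Real.log_le_log (by positivity) (by push_cast; linarith)
      rw [Real.log_mul (by norm_num) (by linarith)] at h5
      have := Real.log_le_sub_one_of_pos (show (0 : ℝ) < 3 by norm_num)
      linarith
    have e1 : 1 / (del (2 * M) / 2 * (M : ℝ) ^ γ) =
        2 * (2 + Real.log (((2 * M : ℕ) : ℝ) + 1)) / (M : ℝ) ^ γ := by
      unfold del; field_simp
    have e2 : ((fun x : ℝ => 8 * (1 / x ^ γ) + 2 * (Real.log x / x ^ γ)) ∘ Nat.cast) M =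
        (8 + 2 * Real.log M) / (M : ℝ) ^ γ := by
      simp only [Function.comp]; ring
    rw [e1, e2]
    exact div_le_div_of_nonneg_right (by linarith) hp.le

lemma norm_pts (n : ℕ) : ‖pts rad n‖ = rad (Nat.log 2 n) := by
  unfold pts
  rw [norm_mul, norm_u, mul_one, Complex.norm_real,
    Real.norm_of_nonneg (by linarith [rad_ge (Nat.log 2 n)])]

lemma pts_inj : Function.Injective (pts rad) := by
  intro a b hab
  have h1 : rad (Nat.log 2 a) = rad (Nat.log 2 b) := by rw [← norm_pts, ← norm_pts, hab]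
  unfold pts at hab
  rw [h1] at hab
  have h2 : (rad (Nat.log 2 b) : ℂ) ≠ 0 := by
    exact_mod_cast (by linarith [rad_ge (Nat.log 2 b)] : rad (Nat.log 2 b) ≠ 0)
  exact u_inj (mul_left_cancel₀ h2 hab)

lemma density_zero : upperDensity (pts rad) = 0 := by
  apply Tendsto.limsup_eq
  rw [ENNReal.tendsto_nhds_zero]
  intro ε hε
  obtain ⟨e, he0, he⟩ : ∃ e : ℝ, 0 < e ∧ ENNReal.ofReal e ≤ ε := by
    rcases eq_or_ne ε ⊤ with rfl | h
    · exact ⟨1, one_pos, le_top⟩
    · exact ⟨ε.toReal, ENNReal.toReal_pos hε.ne' h, by rw [ENNReal.ofReal_toReal h]⟩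
  obtain ⟨m0, hm0⟩ := eventually_atTop.mp (del_tendsto.eventually (ge_mem_nhds (show 0 < e / 4 by positivity)))
  have hlim : Tendsto (fun r : ℝ => (1 - r) * (2 ^ m0 + 1)) (𝓝[<] 1) (𝓝 0) := by
    have : Tendsto (fun r : ℝ => (1 - r) * (2 ^ m0 + 1)) (𝓝 1) (𝓝 ((1 - 1) * (2 ^ m0 + 1))) :=
      (by fun_prop : Continuous fun r : ℝ => (1 - r) * (2 ^ m0 + 1)).tendsto 1
    simpa using this.mono_left nhdsWithin_le_nhds
  filter_upwards [hlim.eventually (ge_mem_nhds (show 0 < e / 2 by positivity)),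
    self_mem_nhdsWithin] with r hr1 hr2
  have hr : 0 < 1 - r := sub_pos.mpr hr2
  let K : ℕ := 2 ^ m0 + ⌈e / 2 / (1 - r)⌉₊
  have hsub : Set.range (pts rad) ∩ Metric.ball 0 r ⊆ (pts rad) '' (Finset.range K : Set ℕ) := by
    rintro _ ⟨⟨n, rfl⟩, hn⟩
    refine ⟨n, ?_, rfl⟩
    rw [mem_ball_zero_iff, norm_pts] at hn
    rw [Finset.coe_range, Set.mem_Iio]
    have h1 : n < 2 ^ (Nat.log 2 n + 1) := Nat.lt_pow_succ_log_self (by norm_num) n
    by_cases hc : Nat.log 2 n < m0
    · have : 2 ^ (Nat.log 2 n + 1) ≤ 2 ^ m0 := Nat.pow_le_pow_right (by norm_num) hc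
      exact lt_of_lt_of_le (h1.trans_le this) (Nat.le_add_right _ _)
    · have h2 := hm0 _ (not_lt.mp hc)
      have h3 : (n : ℝ) < e / 2 / (1 - r) := by
        rw [lt_div_iff₀ hr]
        have h4 : (n : ℝ) < 2 ^ (Nat.log 2 n + 1) := by exact_mod_cast h1
        have h5 : 1 - r < del (Nat.log 2 n) / 2 ^ (Nat.log 2 n) := by unfold rad at hn; linarith
        rw [lt_div_iff₀ (by positivity)] at h5
        rw [pow_succ] at h4
        nlinarith
      have h6 : n < ⌈e / 2 / (1 - r)⌉₊ := Nat.lt_ceil.mpr h3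
      exact lt_of_lt_of_le h6 (Nat.le_add_left _ _)
  have hcard : (Set.range (pts rad) ∩ Metric.ball 0 r).encard ≤ (K : ℕ∞) := by
    refine (Set.encard_le_encard hsub).trans ((Set.encard_image_le _ _).trans ?_)
    rw [Set.encard_coe_eq_coe_finsetCard, Finset.card_range]
  have hcard' : ((Set.range (pts rad) ∩ Metric.ball 0 r).encard : ℝ≥0∞) ≤ ENNReal.ofReal K := by
    rw [ENNReal.ofReal_natCast]
    exact_mod_cast ENat.toENNReal_le.mpr hcard
  refine le_trans (mul_le_mul_right hcard' _) (le_trans ?_ he)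
  rw [← ENNReal.ofReal_mul hr.le]
  apply ENNReal.ofReal_le_ofReal
  have h7 : (⌈e / 2 / (1 - r)⌉₊ : ℝ) ≤ e / 2 / (1 - r) + 1 := (Nat.ceil_lt_add_one (by positivity)).le
  have h8 : (K : ℝ) ≤ (2 ^ m0 + 1) + e / 2 / (1 - r) := by
    simp only [K]; push_cast; linarith
  calc (1 - r) * K ≤ (1 - r) * ((2 ^ m0 + 1) + e / 2 / (1 - r)) := by gcongr
    _ = (1 - r) * (2 ^ m0 + 1) + e / 2 := by field_simp
    _ ≤ e := by linarith

theorem representing (p : ℝ) (hp : 1 < p) : IsRepresenting p (pts rad) := by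
  have : Fact (0 < 2 * Real.pi) := ⟨Real.two_pi_pos⟩
  have : Fact (1 ≤ ENNReal.ofReal p) := ⟨by simpa using hp.le⟩
  have hp0 : 0 < p := by linarith
  rintro f ⟨hf, hfin⟩
  obtain ⟨a, ha⟩ := exists_PS f 1 hf
  set T := 2 * Real.pi with hT
  set P := ENNReal.ofReal p with hP
  have hlt : ∀ n, ‖pts rad n‖ < 1 := fun n => by rw [norm_pts]; exact rad_lt _
  obtain ⟨Fs, hFs1, hFs2⟩ := ha.boundary (T := T) p hp (hardyNorm p f).toReal (by
    intro r h0 h1
    have h2 : integralMean p f r ≤ hardyNorm p f :=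
      le_iSup₂_of_le (f := fun r (_ : r ∈ Set.Ico (0 : ℝ) 1) => integralMean p f r) r ⟨h0, h1⟩ le_rfl
    rw [integralMean_eq_LL p hp0 ha r h0 h1] at h2
    exact (ENNReal.ofReal_le_iff_le_toReal hfin.ne).mp h2)
  let k : ℕ → Lp ℂ P (@haarAddCircle T _) := fun n => LL T P (circ T (cauchyKernel (pts rad n)) 1)
  have hmax : 0 < max p 2 := lt_max_of_lt_left hp0
  obtain ⟨c, hc⟩ := repr_main (fun l : ℕ => LL T P (fourier (l : ℤ))) (max p 2)⁻¹ (by positivity)
    (inv_le_one_of_one_le₀ (le_max_of_le_left hp.le))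
    (fun s b A B hA h1 h2 => interp p hp0 s b A B hA h1 h2)
    rad rad_ge rad_lt (fun M => del (2 * M) / 2) (fun M => by have := del_pos (2 * M); positivity)
    (fun M => by linarith [del_le (2 * M)])
    (fun M m hm => by linarith [rad_pow m, del_anti hm])
    (lim_del _ (by positivity)) k (fun n => by
      have h1 := (LL T P).hasSum (((kernel_PS _ (hlt n)).hasSum_circ (T := T) 1
        (by simpa using one_lt_rad _ (hlt n))).1)
      simpa only [one_pow, mul_one, map_smul] using h1) Fs hFs1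
  refine ⟨c, ?_⟩
  have hbound : ∀ N : ℕ, hardyNorm p
      (fun z => f z - ∑ n ∈ Finset.range N, c n * cauchyKernel (pts rad n) z) ≤
      ENNReal.ofReal ‖Fs - ∑ n ∈ Finset.range N, c n • k n‖ := by
    intro N
    set g : ℂ → ℂ := fun z => f z - ∑ n ∈ Finset.range N, c n * cauchyKernel (pts rad n) z with hg
    have hgPS : PS g (fun l => a l - ∑ n ∈ Finset.range N,
        c n * (starRingEnd ℂ) (pts rad n) ^ l) 1 := by
      intro z hz
      have h1 := (ha z hz).sub (hasSum_sum fun n (_ : n ∈ Finset.range N) =>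
        ((kernel_PS _ (hlt n)) z (hz.trans (one_lt_rad _ (hlt n)))).mul_left (c n))
      simp only [sub_mul, sum_mul, mul_assoc]
      exact h1
    have hcirc : ∀ w : ℂ, ‖w‖ < 1 → circ T g w =
        circ T f w - ∑ n ∈ Finset.range N, c n • circ T (cauchyKernel (pts rad n)) w := by
      intro w hw
      ext t
      rw [(hgPS.hasSum_circ w hw).2, ContinuousMap.sub_apply, (ha.hasSum_circ w hw).2,
        ContinuousMap.coe_sum, Finset.sum_apply]
      simp only [hg]
      congr 1
      refine sum_congr rfl fun n _ => ?_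
      rw [ContinuousMap.smul_apply, ((kernel_PS _ (hlt n)).hasSum_circ w
        (hw.trans (one_lt_rad _ (hlt n)))).2, smul_eq_mul]
    have hlim : Tendsto (fun i => LL T P (circ T g (rho i))) atTop
        (𝓝 (Fs - ∑ n ∈ Finset.range N, c n • k n)) := by
      have h1 : ∀ n, Tendsto (fun i => LL T P (circ T (cauchyKernel (pts rad n)) (rho i))) atTop
          (𝓝 (k n)) := by
        intro n
        have h2 : ContinuousAt (fun w => LL T P (circ T (cauchyKernel (pts rad n)) w)) 1 :=
          ((LL T P).differentiableAt.comp _ ((kernel_PS _ (hlt n)).differentiableAt 1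
            (by simpa using one_lt_rad _ (hlt n)))).continuousAt
        have h3 : Tendsto (fun i => ((rho i : ℝ) : ℂ)) atTop (𝓝 1) := by
          simpa using rho_tendsto.ofReal
        exact h2.tendsto.comp h3
      have h4 := hFs2.sub (tendsto_finsetSum (Finset.range N) fun n _ => (h1 n).const_smul (c n))
      refine h4.congr fun i => ?_
      rw [hcirc _ (norm_ofReal_lt (rho_pos i).le (rho_lt i)), map_sub, map_sum]
      simp only [map_smul]
      rfl
    refine iSup₂_le fun r hr => ?_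
    rw [integralMean_eq_LL p hp0 hgPS r hr.1 hr.2]
    apply ENNReal.ofReal_le_ofReal
    refine ge_of_tendsto hlim.norm ?_
    filter_upwards [rho_tendsto.eventually (le_mem_nhds hr.2)] with i hi
    exact hgPS.mono P r (rho i) hr.1 hi (rho_lt i)
  have h0 : Tendsto (fun N => ENNReal.ofReal ‖Fs - ∑ n ∈ Finset.range N, c n • k n‖) atTop
      (𝓝 0) := by
    have h1 : Tendsto (fun N => ‖Fs - ∑ n ∈ Finset.range N, c n • k n‖) atTop (𝓝 0) := by
      have := (tendsto_const_nhds (x := Fs)).sub hc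
      simpa using this.norm
    simpa using ENNReal.tendsto_ofReal h1
  exact tendsto_of_tendsto_of_tendsto_of_le_of_le tendsto_const_nhds h0 (fun _ => zero_le) hbound

theorem main : ∃ Λ : ℕ → ℂ, Function.Injective Λ ∧ (∀ n, ‖Λ n‖ < 1) ∧ upperDensity Λ = 0 ∧
    ∀ p : ℝ, 1 < p → IsRepresenting p Λ :=
  ⟨pts rad, pts_inj, fun n => by rw [norm_pts]; exact rad_lt _, density_zero, representing⟩

end Pool.Agent.H954Z.Hardy
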