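import Mathlib

/-!
# Locality vector spaces and locality tensor products (definitions)
-/

set_option autoImplicit false

namespace Pool.Agent.H954Z.Loc

open scoped TensorProduct

universe u v

/-- The polar set `S^⊤ = {x : x ⊤ y for all y ∈ S}` of a subset `S` for a relation `top`. -/
def polar {X : Type v} (top : X → X → Prop) (S : Set X) : Set X := {x | ∀ y ∈ S, top x y}

/-- `(E, top)` is a locality vector space over `K`: the relation is symmetric and the polar set of
every subset is a linear subspace. -/
def IsLocalityVS (K : Type u) [Field K] {E : Type v} [AddCommGroup E] [Module K E]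
    (top : E → E → Prop) : Prop :=
  (∀ x y, top x y → top y x) ∧ ∀ S : Set E, ∃ P : Submodule K E, (P : Set E) = polar top S

/-- The locality tensor product of the subspaces `V, W` of `E`, as the subspace of `V ⊗ W` spanned by
the tensors `v ⊗ w` with `v ⊤ w` (the image of the free vector space on `V ×_⊤ W`). -/
def locTensor {K : Type u} [Field K] {E : Type v} [AddCommGroup E] [Module K E]
    (top : E → E → Prop) (V W : Submodule K E) : Submodule K (V ⊗[K] W) :=
  Submodule.span K {t | ∃ (v : V) (w : W), top (v : E) (w : E) ∧ t = v ⊗ₜ[K] w}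

/-- The tensor `∑ i, v i ⊗ w i`. -/
noncomputable def tensorSum {K : Type u} [Field K] {E : Type v} [AddCommGroup E] [Module K E]
    {V W : Submodule K E} {m : ℕ} (v : Fin m → V) (w : Fin m → W) : V ⊗[K] W :=
  ∑ i, v i ⊗ₜ[K] w i

/-- The quotient locality relation on the locality tensor product: `X = ∑ v_i ⊗ w_i` and
`Y = ∑ v'_j ⊗ w'_j` for some finite families such that for all `i, j` the four vectors
`v_i, w_i, v'_j, w'_j` are pairwise independent. -/
def locRel {K : Type u} [Field K] {E : Type v} [AddCommGroup E] [Module K E]
    (top : E → E → Prop) (V W : Submodule K E) (X Y : locTensor top V W) : Prop :=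
  ∃ (m n : ℕ) (v : Fin m → V) (w : Fin m → W) (v' : Fin n → V) (w' : Fin n → W),
    X.1 = tensorSum v w ∧ Y.1 = tensorSum v' w' ∧
    (∀ i, top (v i).1 (w i).1) ∧ (∀ j, top (v' j).1 (w' j).1) ∧
    ∀ i j, top (v i).1 (v' j).1 ∧ top (v i).1 (w' j).1 ∧
      top (w i).1 (v' j).1 ∧ top (w i).1 (w' j).1

/-- All polar sets of the locality tensor product of `V` and `W`, for the quotient locality relation,
are closed under addition (a necessary condition for being a locality vector space). -/
def PolarsAddClosed {K : Type u} [Field K] {E : Type v} [AddCommGroup E] [Module K E]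
    (top : E → E → Prop) (V W : Submodule K E) : Prop :=
  ∀ (S : Set (locTensor top V W)) (X₁ X₂ : locTensor top V W),
    X₁ ∈ polar (locRel top V W) S → X₂ ∈ polar (locRel top V W) S →
      X₁ + X₂ ∈ polar (locRel top V W) S

end Pool.Agent.H954Z.Loc
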