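import Pool.Agent.H954Z.LocDefs

/-!
# A locality vector space whose locality tensor square is not a locality vector space
-/

set_option autoImplicit false

namespace Pool.Agent.H954Z.Loc

open scoped TensorProduct

universe u v

section Proof

variable {K : Type u} [Field K]

/-- One half of the relation.  Coordinates: `a1,a2,a3 = 0,1,2`, `b1,b2,b3 = 3,4,5`,
`x = 6`, `y1 = 7`, `y2 = 8`. -/
def Phi (u v : Fin 9 → K) : Prop :=
  u 0 * v 4 = 0 ∧ u 1 * v 3 = 0 ∧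
  u 0 * v 3 + u 0 * v 5 + u 2 * v 3 = u 1 * v 4 + u 1 * v 5 + u 2 * v 4 ∧
  u 7 * v 2 = 0 ∧ u 8 * v 5 = 0

/-- The locality relation of the counterexample. -/
def rel (u v : Fin 9 → K) : Prop := Phi u v ∧ Phi v u ∧ ∀ i, u i * v i = 0

lemma rel_symm (u v : Fin 9 → K) (h : rel u v) : rel v u :=
  ⟨h.2.1, h.1, fun i => by rw [mul_comm]; exact h.2.2 i⟩

lemma rel_zero (v : Fin 9 → K) : rel 0 v := by
  simp [rel, Phi]

lemma rel_add (u u' v : Fin 9 → K) (h : rel u v) (h' : rel u' v) : rel (u + u') v := by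
  obtain ⟨⟨a1, a2, a3, a4, a5⟩, ⟨b1, b2, b3, b4, b5⟩, c⟩ := h
  obtain ⟨⟨a1', a2', a3', a4', a5'⟩, ⟨b1', b2', b3', b4', b5'⟩, c'⟩ := h'
  refine ⟨⟨?_, ?_, ?_, ?_, ?_⟩, ⟨?_, ?_, ?_, ?_, ?_⟩, fun i => ?_⟩ <;> simp only [Pi.add_apply]
  · linear_combination a1 + a1'
  · linear_combination a2 + a2'
  · linear_combination a3 + a3'
  · linear_combination a4 + a4'
  · linear_combination a5 + a5'
  · linear_combination b1 + b1'
  · linear_combination b2 + b2'
  · linear_combination b3 + b3'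
  · linear_combination b4 + b4'
  · linear_combination b5 + b5'
  · linear_combination c i + c' i

lemma rel_smul (k : K) (u v : Fin 9 → K) (h : rel u v) : rel (k • u) v := by
  obtain ⟨⟨a1, a2, a3, a4, a5⟩, ⟨b1, b2, b3, b4, b5⟩, c⟩ := h
  refine ⟨⟨?_, ?_, ?_, ?_, ?_⟩, ⟨?_, ?_, ?_, ?_, ?_⟩, fun i => ?_⟩ <;>
    simp only [Pi.smul_apply, smul_eq_mul]
  · linear_combination k * a1
  · linear_combination k * a2
  · linear_combination k * a3
  · linear_combination k * a4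
  · linear_combination k * a5
  · linear_combination k * b1
  · linear_combination k * b2
  · linear_combination k * b3
  · linear_combination k * b4
  · linear_combination k * b5
  · linear_combination k * c i

lemma isLoc : IsLocalityVS K (rel (K := K)) := by
  refine ⟨rel_symm, fun S => ⟨
    { carrier := polar rel S
      add_mem' := fun {a b} ha hb y hy => rel_add a b y (ha y hy) (hb y hy)
      zero_mem' := fun y _ => rel_zero y
      smul_mem' := fun k a ha y hy => rel_smul k a y (ha y hy) }, rfl⟩⟩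

/-- The whole space as a subspace. -/
abbrev T (K : Type u) [Field K] : Submodule K (Fin 9 → K) := ⊤

/-- A vector as an element of the whole space. -/
def t (u : Fin 9 → K) : T K := ⟨u, Submodule.mem_top⟩

/-- Basis vectors. -/
def e (i : Fin 9) : Fin 9 → K := Pi.single i 1

/-- The coordinate functional `e_i^* ⊗ e_j^*`. -/
noncomputable def co (i j : Fin 9) : (T K ⊗[K] T K) →ₗ[K] K :=
  TensorProduct.lift ((LinearMap.mul K K).compl₁₂
    ((LinearMap.proj i).comp (T K).subtype) ((LinearMap.proj j).comp (T K).subtype))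

lemma co_tmul (i j : Fin 9) (u v : T K) : co i j (u ⊗ₜ[K] v) = (u : Fin 9 → K) i * (v : Fin 9 → K) j := by
  simp [co]

lemma t_add (u v : Fin 9 → K) : t (u + v) = t u + t v := rfl
lemma t_sub (u v : Fin 9 → K) : t (u - v) = t u - t v := rfl
lemma coe_t (u : Fin 9 → K) : ((t u : T K) : Fin 9 → K) = u := rfl

lemma rel_iff (u v : Fin 9 → K) : rel u v ↔ Phi u v ∧ Phi v u ∧ (u 0 * v 0 = 0 ∧ u 1 * v 1 = 0 ∧
    u 2 * v 2 = 0 ∧ u 3 * v 3 = 0 ∧ u 4 * v 4 = 0 ∧ u 5 * v 5 = 0 ∧ u 6 * v 6 = 0 ∧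
    u 7 * v 7 = 0 ∧ u 8 * v 8 = 0) := by
  unfold rel
  simp only [Fin.forall_fin_succ, IsEmpty.forall_iff, and_true]
  rfl

lemma mem_loc (u v : Fin 9 → K) (h : rel u v) :
    t u ⊗ₜ[K] t v ∈ locTensor (rel (K := K)) (T K) (T K) :=
  Submodule.subset_span ⟨t u, t v, h, rfl⟩

lemma Y_eq1 : (t (e 0) ⊗ₜ[K] t (e 3) + t (e 1) ⊗ₜ[K] t (e 4) : T K ⊗[K] T K) =
    ∑ j : Fin 3, (![t (e 0), t (e 1), t (e 0 + e 1)] j) ⊗ₜ[K]
      (![t (e 3 - e 5), t (e 4 - e 5), t (e 5)] j) := by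
  simp only [Fin.sum_univ_three, Matrix.cons_val_zero, Matrix.cons_val_one, Matrix.cons_val_two,
    Matrix.head_cons, Matrix.tail_cons, t_add, t_sub, TensorProduct.add_tmul,
    TensorProduct.tmul_sub]
  abel

lemma Y_eq2 : (t (e 0) ⊗ₜ[K] t (e 3) + t (e 1) ⊗ₜ[K] t (e 4) : T K ⊗[K] T K) =
    ∑ j : Fin 3, (![t (e 0 - e 2), t (e 1 - e 2), t (e 2)] j) ⊗ₜ[K]
      (![t (e 3), t (e 4), t (e 3 + e 4)] j) := by
  simp only [Fin.sum_univ_three, Matrix.cons_val_zero, Matrix.cons_val_one, Matrix.cons_val_two,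
    Matrix.head_cons, Matrix.tail_cons, t_add, t_sub, TensorProduct.tmul_add,
    TensorProduct.sub_tmul]
  abel

lemma Y_mem : (t (e 0) ⊗ₜ[K] t (e 3) + t (e 1) ⊗ₜ[K] t (e 4) : T K ⊗[K] T K) ∈
    locTensor (rel (K := K)) (T K) (T K) := by
  rw [Y_eq1]
  refine Submodule.sum_mem _ fun j _ => ?_
  fin_cases j <;> apply mem_loc <;> simp [rel_iff, Phi, e]

lemma r67 : rel (e 6 : Fin 9 → K) (e 7) := by simp [rel_iff, Phi, e]
lemma r68 : rel (e 6 : Fin 9 → K) (e 8) := by simp [rel_iff, Phi, e]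

/-- The tensor `Y = a1 ⊗ b1 + a2 ⊗ b2`. -/
noncomputable def Yt : locTensor (rel (K := K)) (T K) (T K) := ⟨_, Y_mem⟩
/-- The tensor `x ⊗ y1`. -/
noncomputable def X1 : locTensor (rel (K := K)) (T K) (T K) := ⟨_, mem_loc _ _ r67⟩
/-- The tensor `x ⊗ y2`. -/
noncomputable def X2 : locTensor (rel (K := K)) (T K) (T K) := ⟨_, mem_loc _ _ r68⟩

lemma X1_rel : locRel rel (T K) (T K) X1 Yt := by
  refine ⟨1, 3, ![t (e 6)], ![t (e 7)], _, _, by simp [X1, tensorSum], Y_eq1, ?_, ?_, ?_⟩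
  · intro i; fin_cases i; exact r67
  · intro j; fin_cases j <;> simp [coe_t, rel_iff, Phi, e]
  · intro i j; fin_cases i; fin_cases j <;> simp [coe_t, rel_iff, Phi, e]

lemma X2_rel : locRel rel (T K) (T K) X2 Yt := by
  refine ⟨1, 3, ![t (e 6)], ![t (e 8)], _, _, by simp [X2, tensorSum], Y_eq2, ?_, ?_, ?_⟩
  · intro i; fin_cases i; exact r68
  · intro j; fin_cases j <;> simp [coe_t, rel_iff, Phi, e]
  · intro i j; fin_cases i; fin_cases j <;> simp [coe_t, rel_iff, Phi, e]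

lemma sum_not_rel : ¬ locRel rel (T K) (T K) (X1 + X2) Yt := by
  rintro ⟨m, n, v, w, v', w', hX, hY, -, h2, h3⟩
  have hX' : (t (e 6) ⊗ₜ[K] t (e 7) + t (e 6) ⊗ₜ[K] t (e 8) : T K ⊗[K] T K) =
      ∑ i, v i ⊗ₜ[K] w i := hX
  have hY' : (t (e 0) ⊗ₜ[K] t (e 3) + t (e 1) ⊗ₜ[K] t (e 4) : T K ⊗[K] T K) =
      ∑ j, v' j ⊗ₜ[K] w' j := hY
  have h7 : ∃ i, (w i : Fin 9 → K) 7 ≠ 0 := by
    by_contra hc
    push Not at hc
    have := congrArg (co 6 7) hX'
    simp [co_tmul, coe_t, e, hc] at this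
  have h8 : ∃ i, (w i : Fin 9 → K) 8 ≠ 0 := by
    by_contra hc
    push Not at hc
    have := congrArg (co 6 8) hX'
    simp [co_tmul, coe_t, e, hc] at this
  obtain ⟨i7, h7⟩ := h7
  obtain ⟨i8, h8⟩ := h8
  have key : ∀ j, (v' j : Fin 9 → K) 0 * (w' j : Fin 9 → K) 3 = 0 := by
    intro j
    have a2 : (v' j : Fin 9 → K) 2 = 0 :=
      (mul_eq_zero.mp (h3 i7 j).2.2.1.1.2.2.2.1).resolve_left h7
    have b3 : (w' j : Fin 9 → K) 5 = 0 :=
      (mul_eq_zero.mp (h3 i8 j).2.2.2.1.2.2.2.2).resolve_left h8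
    obtain ⟨⟨c1, c2, c3, -, -⟩, -, -⟩ := h2 j
    rw [a2, b3] at c3
    have : ((v' j : Fin 9 → K) 0 * (w' j : Fin 9 → K) 3) ^ 2 = 0 := by
      linear_combination ((v' j : Fin 9 → K) 0 * (w' j : Fin 9 → K) 3) * c3 +
        ((v' j : Fin 9 → K) 1 * (w' j : Fin 9 → K) 3) * c1
    exact pow_eq_zero_iff (two_ne_zero) |>.mp this
  have := congrArg (co 0 3) hY'
  simp [co_tmul, coe_t, e, key] at this

end Proof

theorem main (K : Type u) [Field K] :
    ∃ top : (Fin 9 → K) → (Fin 9 → K) → Prop,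
      IsLocalityVS K top ∧ (∀ x, top x x → x = 0) ∧
      ¬ PolarsAddClosed top (⊤ : Submodule K (Fin 9 → K)) ⊤ := by
  have h1 : X1 ∈ polar (locRel rel (T K) (T K)) {Yt} := by
    intro y hy; rw [Set.mem_singleton_iff.mp hy]; exact X1_rel
  have h2 : X2 ∈ polar (locRel rel (T K) (T K)) {Yt} := by
    intro y hy; rw [Set.mem_singleton_iff.mp hy]; exact X2_rel
  have h3 : X1 + X2 ∉ polar (locRel rel (T K) (T K)) {Yt} :=
    fun h => sum_not_rel (h _ (Set.mem_singleton _))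
  refine ⟨rel, isLoc, ?_, fun h => h3 (h _ _ _ h1 h2)⟩
  intro x hx
  funext i
  exact mul_self_eq_zero.mp (hx.2.2 i)

end Pool.Agent.H954Z.Loc
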