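import Mathlib

/-!
# A loopless relation with a 5-ary near-unanimity polymorphism

The carrier is the set of pairs of distinct rationals, `(s,t) R (s',t')` iff `s ≤ t'` and `t ≤ s'`.
-/

set_option autoImplicit false

namespace Pool.Agent.H954Z.NU

open Classical in
/-- One-point extension property on a countable set gives a global function. -/
theorem exists_fun {W α : Type} [Countable W] [Nonempty α] (U : W → α → Prop)
    (B : W → α → W → α → Prop) (hsymm : ∀ x a y b, B x a y b → B y b x a)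
    (h : ∀ (s : Finset W) (g : W → α) (w : W), w ∉ s → (∀ x ∈ s, U x (g x)) →
      (∀ x ∈ s, ∀ y ∈ s, x ≠ y → B x (g x) y (g y)) → ∃ q, U w q ∧ ∀ x ∈ s, B x (g x) w q) :
    ∃ g : W → α, (∀ w, U w (g w)) ∧ ∀ x y, x ≠ y → B x (g x) y (g y) := by
  obtain ⟨e, he⟩ := Countable.exists_injective_nat W
  have wf : WellFounded (fun x y : W => e x < e y) := InvImage.wf e wellFounded_lt
  let F : ∀ w : W, (∀ x : W, e x < e w → α) → α := fun w r =>
    if hq : ∃ q, U w q ∧ ∀ x (hx : e x < e w), B x (r x hx) w q then hq.choose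
    else Classical.arbitrary α
  let g : W → α := wf.fix F
  have hg : ∀ w, g w = F w (fun x _ => g x) := fun w => wf.fix_eq F w
  have key : ∀ n : ℕ, ∀ w, e w = n → U w (g w) ∧ ∀ x, e x < e w → B x (g x) w (g w) := by
    intro n
    induction n using Nat.strong_induction_on with
    | _ n ih =>
      intro w hw
      have hfin : {x | e x < e w}.Finite :=
        Set.Finite.preimage he.injOn (Set.finite_lt_nat (e w))
      have hex : ∃ q, U w q ∧ ∀ x, e x < e w → B x (g x) w q := by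
        obtain ⟨q, hq1, hq2⟩ := h hfin.toFinset g w (by simp) (by
          intro x hx
          have hx' : e x < e w := by simpa using hx
          exact (ih (e x) (hw ▸ hx') x rfl).1) (by
          intro x hx y hy hxy
          have hx' : e x < e w := by simpa using hx
          have hy' : e y < e w := by simpa using hy
          rcases lt_trichotomy (e x) (e y) with h1 | h1 | h1
          · exact (ih (e y) (hw ▸ hy') y rfl).2 x h1
          · exact absurd (he h1) hxy
          · exact hsymm _ _ _ _ ((ih (e x) (hw ▸ hx') x rfl).2 y h1))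
        exact ⟨q, hq1, fun x hx => hq2 x (by simpa using hx)⟩
      have hgw : g w = hex.choose := by
        rw [hg w]
        simp only [F]
        rw [dif_pos hex]
      rw [hgw]
      exact hex.choose_spec
  refine ⟨g, fun w => (key _ w rfl).1, fun x y hxy => ?_⟩
  rcases lt_trichotomy (e x) (e y) with h1 | h1 | h1
  · exact (key _ y rfl).2 x h1
  · exact absurd (he h1) hxy
  · exact hsymm _ _ _ _ ((key _ x rfl).2 y h1)

/-- A monotone function squeezed between two monotone envelopes, generic where they differ. -/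
theorem exists_generic {W : Type} [Countable W] [PartialOrder W] (lo hi : W → ℚ)
    (hlo : Monotone lo) (hhi : Monotone hi) (hle : ∀ w, lo w ≤ hi w) (bad : W → Finset ℚ) :
    ∃ g : W → ℚ, Monotone g ∧ (∀ w, lo w = hi w → g w = lo w) ∧
      (∀ w, lo w < hi w → g w ∉ bad w) ∧
      ∀ x y, x ≠ y → lo x < hi x → lo y < hi y → g x ≠ g y := by
  classical
  obtain ⟨g, hU, hB⟩ := exists_fun (W := W) (α := ℚ)
    (fun w q => (lo w < hi w → lo w < q ∧ q < hi w ∧ q ∉ bad w) ∧ (lo w = hi w → q = lo w))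
    (fun x a y b => lo x < hi x → lo y < hi y → a ≠ b ∧ (x ≤ y → a < b) ∧ (y ≤ x → b < a))
    (by
      intro x a y b h hy hx
      obtain ⟨h1, h2, h3⟩ := h hx hy
      exact ⟨h1.symm, h3, h2⟩)
    (by
      intro s g w hw hU hB
      rcases (hle w).eq_or_lt with hw0 | hw0
      · exact ⟨lo w, ⟨fun h => absurd hw0 h.ne, fun _ => rfl⟩,
          fun x _ _ h => absurd hw0 h.ne⟩
      let Lo : Finset ℚ := insert (lo w) ((s.filter (fun x => lo x < hi x ∧ x ≤ w)).image g)
      let Hi : Finset ℚ := insert (hi w) ((s.filter (fun x => lo x < hi x ∧ w ≤ x)).image g)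
      have hLo : Lo.Nonempty := Finset.insert_nonempty _ _
      have hHi : Hi.Nonempty := Finset.insert_nonempty _ _
      have hlt : ∀ a ∈ Lo, ∀ b ∈ Hi, a < b := by
        intro a ha b hb
        simp only [Lo, Hi, Finset.mem_insert, Finset.mem_image, Finset.mem_filter] at ha hb
        rcases ha with rfl | ⟨x, ⟨hx, hx1, hx2⟩, rfl⟩ <;>
          rcases hb with rfl | ⟨y, ⟨hy, hy1, hy2⟩, rfl⟩
        · exact hw0
        · exact lt_of_le_of_lt (hlo hy2) ((hU y hy).1 hy1).1
        · exact lt_of_lt_of_le ((hU x hx).1 hx1).2.1 (hhi hx2)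
        · have hxy : x ≠ y := by
            rintro rfl
            exact hw (le_antisymm hx2 hy2 ▸ hx)
          exact (hB x hx y hy hxy hx1 hy1).2.1 (hx2.trans hy2)
      have hmm : Lo.max' hLo < Hi.min' hHi := hlt _ (Lo.max'_mem hLo) _ (Hi.min'_mem hHi)
      obtain ⟨q, hq, hq'⟩ := (Set.Ioo_infinite hmm).exists_notMem_finset (bad w ∪ s.image g)
      have hq1 : ∀ a ∈ Lo, a < q := fun a ha => lt_of_le_of_lt (Lo.le_max' a ha) hq.1
      have hq2 : ∀ b ∈ Hi, q < b := fun b hb => lt_of_lt_of_le hq.2 (Hi.min'_le b hb)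
      refine ⟨q, ⟨fun _ => ⟨hq1 _ (Finset.mem_insert_self _ _), hq2 _ (Finset.mem_insert_self _ _),
        fun h => hq' (Finset.mem_union_left _ h)⟩, fun h => absurd h hw0.ne⟩, ?_⟩
      intro x hx hx1 _
      refine ⟨fun h => hq' (Finset.mem_union_right _ (Finset.mem_image.mpr ⟨x, hx, h⟩)), ?_, ?_⟩
      · intro hxw
        exact hq1 _ (Finset.mem_insert_of_mem (Finset.mem_image.mpr
          ⟨x, Finset.mem_filter.mpr ⟨hx, hx1, hxw⟩, rfl⟩))
      · intro hwx
        exact hq2 _ (Finset.mem_insert_of_mem (Finset.mem_image.mpr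
          ⟨x, Finset.mem_filter.mpr ⟨hx, hx1, hwx⟩, rfl⟩)))
  have hb : ∀ w, lo w ≤ g w ∧ g w ≤ hi w := by
    intro w
    rcases (hle w).eq_or_lt with h | h
    · rw [(hU w).2 h]; exact ⟨le_rfl, h.le⟩
    · exact ⟨((hU w).1 h).1.le, ((hU w).1 h).2.1.le⟩
  refine ⟨g, ?_, fun w h => (hU w).2 h, fun w h => ((hU w).1 h).2.2,
    fun x y hxy hx hy => (hB x y hxy hx hy).1⟩
  intro x y hxy
  rcases eq_or_ne x y with rfl | hne
  · exact le_rfl
  rcases (hle x).eq_or_lt with hx | hx
  · rw [(hU x).2 hx]; exact (hlo hxy).trans (hb y).1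
  rcases (hle y).eq_or_lt with hy | hy
  · rw [(hU y).2 hy, hy]; exact (hb x).2.trans (hhi hxy)
  · exact ((hB x y hne hx hy).2.1 hxy).le

lemma erase_ne (i : Fin 5) : (Finset.univ.erase i).Nonempty := by
  revert i; decide

/-- second smallest entry -/
@[irreducible] def lam (s : Fin 5 → ℚ) : ℚ :=
  Finset.univ.sup' Finset.univ_nonempty (fun i => (Finset.univ.erase i).inf' (erase_ne i) s)

/-- second largest entry -/
@[irreducible] def mu (s : Fin 5 → ℚ) : ℚ :=
  Finset.univ.inf' Finset.univ_nonempty (fun i => (Finset.univ.erase i).sup' (erase_ne i) s)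

lemma le_lam (s : Fin 5 → ℚ) (c : ℚ) : c ≤ lam s ↔ ∃ i, ∀ j, j ≠ i → c ≤ s j := by
  unfold lam
  rw [Finset.le_sup'_iff]
  simp only [Finset.le_inf'_iff, Finset.mem_univ, true_and, Finset.mem_erase, and_true]

lemma mu_le (s : Fin 5 → ℚ) (c : ℚ) : mu s ≤ c ↔ ∃ i, ∀ j, j ≠ i → s j ≤ c := by
  unfold mu
  rw [Finset.inf'_le_iff]
  simp only [Finset.sup'_le_iff, Finset.mem_univ, true_and, Finset.mem_erase, and_true]

lemma avoid4 : ∀ a b c d : Fin 5, ∃ j, j ≠ a ∧ j ≠ b ∧ j ≠ c ∧ j ≠ d := by decide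

lemma lam_mono : Monotone lam := by
  intro s t h
  obtain ⟨i, hi⟩ := (le_lam s _).mp le_rfl
  exact (le_lam t _).mpr ⟨i, fun j hj => (hi j hj).trans (h j)⟩

lemma mu_mono : Monotone mu := by
  intro s t h
  obtain ⟨i, hi⟩ := (mu_le t _).mp le_rfl
  exact (mu_le s _).mpr ⟨i, fun j hj => (h j).trans (hi j hj)⟩

lemma lam_le_mu (s : Fin 5 → ℚ) : lam s ≤ mu s := by
  obtain ⟨i, hi⟩ := (le_lam s _).mp le_rfl
  obtain ⟨i', hi'⟩ := (mu_le s _).mp le_rfl
  obtain ⟨j, h1, h2, -, -⟩ := avoid4 i i' i i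
  exact (hi j h1).trans (hi' j h2)

lemma forced (s : Fin 5 → ℚ) (h : lam s = mu s) :
    ∃ i i', ∀ j, j ≠ i → j ≠ i' → s j = lam s := by
  obtain ⟨i, hi⟩ := (le_lam s _).mp le_rfl
  obtain ⟨i', hi'⟩ := (mu_le s _).mp le_rfl
  exact ⟨i, i', fun j h1 h2 => le_antisymm (h ▸ hi' j h2) (hi j h1)⟩

lemma nu_lam (s : Fin 5 → ℚ) (c : ℚ) (i : Fin 5) (h : ∀ j, j ≠ i → s j = c) :
    lam s = c ∧ mu s = c := by
  have h1 : c ≤ lam s := (le_lam s c).mpr ⟨i, fun j hj => (h j hj).ge⟩
  have h2 : mu s ≤ c := (mu_le s c).mpr ⟨i, fun j hj => (h j hj).le⟩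
  have h3 := lam_le_mu s
  exact ⟨le_antisymm (h3.trans h2) h1, le_antisymm h2 (h1.trans h3)⟩

/-- The first coordinate of the near-unanimity operation. -/
theorem exists_f1 : ∃ g : (Fin 5 → ℚ × ℚ) → ℚ, Monotone g ∧
    (∀ (z : Fin 5 → ℚ × ℚ) (c : ℚ) (i : Fin 5), (∀ j, j ≠ i → (z j).1 = c) → g z = c) ∧
    ∀ z : Fin 5 → ℚ × ℚ, (∀ i, (z i).1 ≠ (z i).2) → g z ≠ g (fun i => (z i).swap) := by
  classical
  obtain ⟨g, hg, h1, h2, h3⟩ := exists_generic (W := Fin 5 → ℚ × ℚ)
    (fun z => lam (fun i => (z i).1)) (fun z => mu (fun i => (z i).1))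
    (fun x y h => lam_mono (fun i => (h i).1)) (fun x y h => mu_mono (fun i => (h i).1))
    (fun z => lam_le_mu _) (fun z => Finset.univ.image (fun i => (z i).2))
  refine ⟨g, hg, ?_, ?_⟩
  · intro z c i h
    obtain ⟨a, b⟩ := nu_lam (fun i => (z i).1) c i h
    rw [h1 z (a.trans b.symm), a]
  · have aux : ∀ z : Fin 5 → ℚ × ℚ, lam (fun i => (z i).1) = mu (fun i => (z i).1) →
        lam (fun i => (z i).2) < mu (fun i => (z i).2) → g z ≠ g (fun i => (z i).swap) := by
      intro z hs ht heq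
      obtain ⟨i, i', hi⟩ := forced _ hs
      obtain ⟨j, j1, j2, -, -⟩ := avoid4 i i' i i
      apply h2 (fun i => (z i).swap) ht
      rw [← heq, h1 z hs, ← hi j j1 j2]
      exact Finset.mem_image.mpr ⟨j, Finset.mem_univ _, rfl⟩
    intro z hz
    rcases (lam_le_mu (fun i => (z i).1)).eq_or_lt with hs | hs <;>
      rcases (lam_le_mu (fun i => (z i).2)).eq_or_lt with ht | ht
    · obtain ⟨i, i', hi⟩ := forced _ hs
      obtain ⟨k, k', hk⟩ := forced _ ht
      obtain ⟨j, j1, j2, j3, j4⟩ := avoid4 i i' k k'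
      rw [h1 z hs, h1 (fun i => (z i).swap) ht]
      intro heq
      apply hz j
      have e1 := hi j j1 j2
      have e2 := hk j j3 j4
      simp only [Prod.fst_swap] at heq
      exact e1.trans (heq.trans e2.symm)
    · exact aux z hs ht
    · have := aux (fun i => (z i).swap) ht hs
      simp only [Prod.swap_swap] at this
      exact this.symm
    · have hne : z ≠ (fun i => (z i).swap) := by
        intro heq
        apply hz 0
        have := congrArg Prod.fst (congrFun heq 0)
        simpa using this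
      exact h3 z (fun i => (z i).swap) hne hs ht

/-- The carrier. -/
def A : Type := {p : ℚ × ℚ // p.1 ≠ p.2}

/-- The relation. -/
def R (x y : A) : Prop := x.1 ≤ y.1.swap

lemma no_loop (a : A) : ¬ R a a := fun h => a.2 (le_antisymm h.1 h.2)

theorem exists_nu : ∃ f : (Fin 5 → A) → A,
    (∀ (x y : A) (i : Fin 5), f (Function.update (fun _ => x) i y) = x) ∧
    ∀ x y : Fin 5 → A, (∀ i, R (x i) (y i)) → R (f x) (f y) := by
  obtain ⟨g, hg, h1, h2⟩ := exists_f1
  refine ⟨fun z => ⟨(g (fun i => (z i).1), g (fun i => (z i).1.swap)),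
    h2 (fun i => (z i).1) (fun i => (z i).2)⟩, ?_, ?_⟩
  · intro x y i
    apply Subtype.ext
    apply Prod.ext
    · apply h1 _ _ i
      intro j hj
      simp [Function.update_of_ne hj]
    · apply h1 _ _ i
      intro j hj
      simp [Function.update_of_ne hj]
  · intro x y h
    constructor
    · exact hg (fun i => h i)
    · exact hg (fun i => ⟨(h i).2, (h i).1⟩)

end Pool.Agent.H954Z.NU
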