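import Mathlib

/-!
# Gluing blocks into a representing system
-/

set_option autoImplicit false

namespace Pool.Agent.H954Z.Rep

open Filter Topology Finset

variable {X : Type*} [NormedAddCommGroup X] [NormedSpace ℂ X]

/-- If every element of a subspace containing the system can be approximated by a far block with
controlled partial sums, every element of the subspace is the sum of a convergent series. -/
theorem repr_of_blocks (k : ℕ → X) (H : Submodule ℂ X) (hk : ∀ n, k n ∈ H)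
    (h : ∀ g ∈ H, ∀ ε : ℝ, 0 < ε → ∀ a : ℕ, ∃ b : ℕ, a < b ∧ ∃ c : ℕ → ℂ,
      (∀ t, a ≤ t → t ≤ b → ‖∑ n ∈ Ico a t, c n • k n‖ ≤ ‖g‖ + ε) ∧
        ‖∑ n ∈ Ico a b, c n • k n - g‖ ≤ ε)
    (f : X) (hf : f ∈ H) :
    ∃ c : ℕ → ℂ, Tendsto (fun N => ∑ n ∈ range N, c n • k n) atTop (𝓝 f) := by
  classical
  choose! B hB C hC1 hC2 using h
  -- state: (position, residual)
  let ε : ℕ → ℝ := fun i => 1 / ((i : ℝ) + 1)
  have hε : ∀ i, 0 < ε i := fun i => by positivity
  let st : ℕ → ℕ × X := fun i => Nat.rec ((0 : ℕ), f) (fun i p =>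
    (B p.2 (ε i) p.1, p.2 - ∑ n ∈ Ico p.1 (B p.2 (ε i) p.1), C p.2 (ε i) p.1 n • k n)) i
  let a : ℕ → ℕ := fun i => (st i).1
  let g : ℕ → X := fun i => (st i).2
  have ha0 : a 0 = 0 := rfl
  have hg0 : g 0 = f := rfl
  have has : ∀ i, a (i + 1) = B (g i) (ε i) (a i) := fun i => rfl
  have hgs : ∀ i, g (i + 1) = g i - ∑ n ∈ Ico (a i) (a (i + 1)), C (g i) (ε i) (a i) n • k n :=
    fun i => rfl
  have hgH : ∀ i, g i ∈ H := by
    intro i
    induction i with
    | zero => exact hf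
    | succ i ih =>
      rw [hgs]
      exact H.sub_mem ih (H.sum_mem fun n _ => H.smul_mem _ (hk n))
  have hlt : ∀ i, a i < a (i + 1) := fun i => hB _ (hgH i) _ (hε i) _
  have hmono : StrictMono a := strictMono_nat_of_lt_succ hlt
  have hsmall : ∀ i, ‖g (i + 1)‖ ≤ ε i := by
    intro i
    rw [hgs, norm_sub_rev]
    exact hC2 _ (hgH i) _ (hε i) _
  -- block index of `n`
  have hex : ∀ n, ∃ i, n < a (i + 1) := fun n =>
    ⟨n, lt_of_lt_of_le (Nat.lt_succ_self n) (hmono.id_le (n + 1))⟩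
  let idx : ℕ → ℕ := fun n => Nat.find (hex n)
  have hidx1 : ∀ n, n < a (idx n + 1) := fun n => Nat.find_spec (hex n)
  have hidx2 : ∀ n, a (idx n) ≤ n := by
    intro n
    rcases h0 : idx n with _ | j
    · rw [ha0]; exact Nat.zero_le _
    · have := Nat.find_min (hex n) (show j < idx n by omega)
      omega
  have hidx : ∀ i n, a i ≤ n → n < a (i + 1) → idx n = i := by
    intro i n h1 h2
    apply le_antisymm
    · exact Nat.find_min' (hex n) h2
    · by_contra hc
      have : a (idx n + 1) ≤ a i := hmono.monotone (show idx n + 1 ≤ i by omega)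
      have := hidx1 n
      omega
  let c : ℕ → ℂ := fun n => C (g (idx n)) (ε (idx n)) (a (idx n)) n
  have hpart : ∀ i t, t ≤ a (i + 1) → ∑ n ∈ Ico (a i) t, c n • k n =
      ∑ n ∈ Ico (a i) t, C (g i) (ε i) (a i) n • k n := by
    intro i t ht
    refine sum_congr rfl fun n hn => ?_
    rw [mem_Ico] at hn
    simp only [c]
    rw [hidx i n hn.1 (lt_of_lt_of_le hn.2 ht)]
  have hfull : ∀ i, ∑ n ∈ range (a i), c n • k n = f - g i := by
    intro i
    induction i with
    | zero => simp [ha0, hg0]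
    | succ i ih =>
      rw [← sum_range_add_sum_Ico _ (hlt i).le, ih, hpart i _ le_rfl, hgs]
      abel
  refine ⟨c, ?_⟩
  have hbound : ∀ N, ‖∑ n ∈ range N, c n • k n - f‖ ≤ 2 * ‖g (idx N)‖ + ε (idx N) := by
    intro N
    rw [← sum_range_add_sum_Ico _ (hidx2 N), hfull, hpart _ _ (hidx1 N).le]
    have h1 := hC1 _ (hgH (idx N)) _ (hε (idx N)) (a (idx N)) N (hidx2 N) (hidx1 N).le
    have : f - g (idx N) + ∑ n ∈ Ico (a (idx N)) N, C (g (idx N)) (ε (idx N)) (a (idx N)) n • k n - f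
        = ∑ n ∈ Ico (a (idx N)) N, C (g (idx N)) (ε (idx N)) (a (idx N)) n • k n - g (idx N) := by
      abel
    rw [this]
    have h2 := norm_sub_le (∑ n ∈ Ico (a (idx N)) N,
      C (g (idx N)) (ε (idx N)) (a (idx N)) n • k n) (g (idx N))
    linarith
  have hεt : Tendsto ε atTop (𝓝 0) := tendsto_one_div_add_atTop_nhds_zero_nat
  have hgt : Tendsto (fun i => ‖g i‖) atTop (𝓝 0) := by
    rw [← tendsto_add_atTop_iff_nat 1]
    exact squeeze_zero (fun _ => norm_nonneg _) hsmall hεt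
  have hidxt : Tendsto idx atTop atTop := by
    rw [tendsto_atTop_atTop]
    intro i
    refine ⟨a i, fun n hn => ?_⟩
    by_contra hc
    have : a (idx n + 1) ≤ a i := hmono.monotone (show idx n + 1 ≤ i by omega)
    have := hidx1 n
    omega
  rw [tendsto_iff_norm_sub_tendsto_zero]
  refine squeeze_zero (fun _ => norm_nonneg _) hbound ?_
  have := ((hgt.const_mul 2).add hεt).comp hidxt
  simpa [Function.comp_def] using this

/-- `g` is approximated, along the blocks `[a M, b M]`, by partial sums that follow `τ M t • g`. -/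
def Good (k : ℕ → X) (a b : ℕ → ℕ) (τ : ℕ → ℕ → ℝ) (g : X) : Prop :=
  ∀ ε : ℝ, 0 < ε → ∀ᶠ M in atTop, ∃ c : ℕ → ℂ, ∀ t, a M ≤ t → t ≤ b M →
    ‖∑ n ∈ Ico (a M) t, c n • k n - (τ M t : ℂ) • g‖ ≤ ε

theorem repr_of_good (k e : ℕ → X) (a b : ℕ → ℕ) (τ : ℕ → ℕ → ℝ)
    (ha : Tendsto a atTop atTop) (hab : ∀ᶠ M in atTop, a M < b M ∧ τ M (b M) = 1 ∧
      ∀ t, a M ≤ t → t ≤ b M → |τ M t| ≤ 1)
    (hk : ∀ n, k n ∈ (Submodule.span ℂ (Set.range e)).topologicalClosure)
    (he : ∀ j, Good k a b τ (e j))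
    (f : X) (hf : f ∈ (Submodule.span ℂ (Set.range e)).topologicalClosure) :
    ∃ c : ℕ → ℂ, Tendsto (fun N => ∑ n ∈ range N, c n • k n) atTop (𝓝 f) := by
  have h1 : ∀ g ∈ Submodule.span ℂ (Set.range e), Good k a b τ g := by
    intro g hg
    induction hg using Submodule.span_induction with
    | mem x hx => obtain ⟨j, rfl⟩ := hx; exact he j
    | zero =>
      intro ε hε
      exact Eventually.of_forall fun M => ⟨0, fun t _ _ => by simpa using hε.le⟩
    | add x y _ _ hx hy =>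
      intro ε hε
      filter_upwards [hx (ε / 2) (by positivity), hy (ε / 2) (by positivity)] with M h1 h2
      obtain ⟨c1, h1⟩ := h1
      obtain ⟨c2, h2⟩ := h2
      refine ⟨c1 + c2, fun t ht1 ht2 => ?_⟩
      have e1 : ∑ n ∈ Ico (a M) t, (c1 + c2) n • k n - (τ M t : ℂ) • (x + y) =
          (∑ n ∈ Ico (a M) t, c1 n • k n - (τ M t : ℂ) • x) +
          (∑ n ∈ Ico (a M) t, c2 n • k n - (τ M t : ℂ) • y) := by
        simp only [Pi.add_apply, add_smul, sum_add_distrib, smul_add]; abel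
      rw [e1]
      refine (norm_add_le _ _).trans ?_
      linarith [h1 t ht1 ht2, h2 t ht1 ht2]
    | smul z x _ hx =>
      intro ε hε
      filter_upwards [hx (ε / (‖z‖ + 1)) (by positivity)] with M h1
      obtain ⟨c1, h1⟩ := h1
      refine ⟨z • c1, fun t ht1 ht2 => ?_⟩
      have e1 : ∑ n ∈ Ico (a M) t, (z • c1) n • k n - (τ M t : ℂ) • (z • x) =
          z • (∑ n ∈ Ico (a M) t, c1 n • k n - (τ M t : ℂ) • x) := by
        simp only [Pi.smul_apply, smul_sub, smul_sum, smul_assoc]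
        rw [smul_comm (τ M t : ℂ) z x]
      rw [e1, norm_smul]
      calc ‖z‖ * _ ≤ (‖z‖ + 1) * (ε / (‖z‖ + 1)) :=
            mul_le_mul (by linarith) (h1 t ht1 ht2) (norm_nonneg _) (by positivity)
        _ = ε := by field_simp
  refine repr_of_blocks k _ hk ?_ f hf
  intro g hg ε hε a0
  have hg' : g ∈ closure (Submodule.span ℂ (Set.range e) : Set X) := hg
  obtain ⟨g', hg'1, hg'2⟩ := Metric.mem_closure_iff.mp hg' (ε / 2) (by positivity)
  rw [dist_eq_norm] at hg'2
  obtain ⟨M, ⟨c, hc⟩, ⟨hM1, hM2, hM3⟩, hM4⟩ :=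
    ((h1 g' hg'1 (ε / 2) (by positivity)).and (hab.and (ha.eventually_ge_atTop a0))).exists
  have hsum : ∀ t, a M ≤ t → ∑ n ∈ Ico a0 t, (if a M ≤ n then c n else 0) • k n =
      ∑ n ∈ Ico (a M) t, c n • k n := by
    intro t ht
    rw [← sum_Ico_consecutive _ hM4 ht, sum_eq_zero, zero_add]
    · refine sum_congr rfl fun n hn => ?_
      rw [if_pos (mem_Ico.mp hn).1]
    · intro n hn
      rw [if_neg (by have := (mem_Ico.mp hn).2; omega), zero_smul]
  refine ⟨b M, by omega, fun n => if a M ≤ n then c n else 0, ?_, ?_⟩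
  · intro t ht1 ht2
    by_cases ht : a M ≤ t
    · rw [hsum t ht]
      have h2 := hc t ht ht2
      have h3 : ‖(τ M t : ℂ) • g'‖ ≤ ‖g‖ + ε / 2 := by
        rw [norm_smul, Complex.norm_real, Real.norm_eq_abs]
        have h4 : ‖g'‖ ≤ ‖g‖ + ε / 2 := by
          have := norm_sub_norm_le g' g
          rw [norm_sub_rev] at this
          linarith
        calc |τ M t| * ‖g'‖ ≤ 1 * ‖g'‖ :=
              mul_le_mul_of_nonneg_right (hM3 t ht ht2) (norm_nonneg _)
          _ ≤ _ := by linarith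
      have h5 := norm_add_le (∑ n ∈ Ico (a M) t, c n • k n - (τ M t : ℂ) • g') ((τ M t : ℂ) • g')
      rw [sub_add_cancel] at h5
      linarith
    · rw [sum_eq_zero, norm_zero]
      · positivity
      · intro n hn
        simp only
        rw [if_neg (by have := (mem_Ico.mp hn).2; omega), zero_smul]
  · rw [hsum _ hM1.le]
    have h2 := hc _ hM1.le le_rfl
    rw [hM2, Complex.ofReal_one, one_smul] at h2
    have h5 := norm_sub_le (∑ n ∈ Ico (a M) (b M), c n • k n - g') (g - g')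
    rw [sub_sub_sub_cancel_right] at h5
    linarith

end Pool.Agent.H954Z.Rep
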