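import Pool.Agent.H954Z.RepMain

/-!
# A representing system of Cauchy kernels in `H^2` with all points on the circle of radius `1/2`
-/

set_option autoImplicit false

namespace Pool.Agent.H954Z.Rep

open Finset Filter Topology

/-- the space of square summable coefficient sequences -/
abbrev L2 : Type := lp (fun _ : ℕ => ℂ) 2

lemma two_toReal : (2 : ENNReal).toReal = 2 := by simp

lemma memL2 (f : ℕ → ℂ) (hf : Summable (fun n => ‖f n‖ ^ 2)) : Memℓp f 2 := by
  apply memℓp_gen
  simpa [two_toReal] using hf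

lemma hasSum_L2 (f : L2) : HasSum (fun l => f l • (lp.single 2 l (1 : ℂ) : L2)) f := by
  have := lp.hasSum_single (p := 2) (by simp) f
  convert this using 2 with l
  rw [← lp.single_smul]
  simp

lemma normsq_L2 (f : L2) : ‖f‖ ^ 2 = ∑' n, ‖f n‖ ^ 2 := by
  have := lp.norm_rpow_eq_tsum (p := 2) (by simp) f
  simpa [two_toReal] using this

theorem repr_l2 : ∃ Λ : ℕ → ℂ, Function.Injective Λ ∧ (∀ n, ‖Λ n‖ < 1) ∧
      (∃ ζ : ℂ, ‖ζ‖ = 1 ∧ ζ ∉ closure (Set.range Λ)) ∧
      ∀ f : ℕ → ℂ, Summable (fun n => ‖f n‖ ^ 2) →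
        ∃ c : ℕ → ℂ, Filter.Tendsto
          (fun N : ℕ => ∑' n : ℕ,
            ‖f n - ∑ k ∈ Finset.range N, c k * (starRingEnd ℂ (Λ k)) ^ n‖ ^ 2)
          Filter.atTop (nhds 0) := by
  let r : ℕ → ℝ := fun _ => 1 / 2
  have hnorm : ∀ n, ‖pts r n‖ = 1 / 2 := by
    intro n
    simp [pts, r, norm_u]
  refine ⟨pts r, ?_, fun n => by rw [hnorm]; norm_num, ⟨1, by simp, ?_⟩, ?_⟩
  · intro a b hab
    apply u_inj
    simpa [pts, r] using hab
  · intro h
    have : closure (Set.range (pts r)) ⊆ Metric.closedBall 0 (1 / 2) := by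
      apply closure_minimal _ Metric.isClosed_closedBall
      rintro _ ⟨n, rfl⟩
      simp [hnorm]
    have := this h
    norm_num at this
  · intro f hf
    let e : ℕ → L2 := fun l => lp.single 2 l (1 : ℂ)
    have hkm : ∀ n, Memℓp (fun l : ℕ => (starRingEnd ℂ) (pts r n) ^ l) 2 := by
      intro n
      apply memL2
      have : (fun l : ℕ => ‖(starRingEnd ℂ) (pts r n) ^ l‖ ^ 2) = fun l : ℕ => (1 / 4 : ℝ) ^ l := by
        funext l
        rw [norm_pow, Complex.norm_conj, hnorm, ← pow_mul, mul_comm, pow_mul]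
        norm_num
      rw [this]
      exact summable_geometric_of_lt_one (by norm_num) (by norm_num)
    let k : ℕ → L2 := fun n => ⟨_, hkm n⟩
    let F : L2 := ⟨f, memL2 f hf⟩
    obtain ⟨c, hc⟩ := repr_main e (1 / 2) (by norm_num) (by norm_num) (by
        intro s b A B hA h1 h2
        have hB : 0 ≤ B := le_trans (sum_nonneg fun _ _ => norm_nonneg _) h2
        have h3 : ‖∑ l ∈ s, b l • e l‖ ^ 2 = ∑ l ∈ s, ‖b l‖ ^ 2 := by
          have := lp.norm_sum_single (p := 2) (E := fun _ : ℕ => ℂ) (by simp) b s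
          rw [two_toReal] at this
          simp only [Real.rpow_two] at this
          rw [← this]
          congr 2
          refine sum_congr rfl fun l _ => ?_
          simp only [e]
          rw [← lp.single_smul]
          simp
        have h4 : ∑ l ∈ s, ‖b l‖ ^ 2 ≤ A * B := by
          calc _ ≤ ∑ l ∈ s, A * ‖b l‖ := sum_le_sum fun l hl => by
                rw [sq]; exact mul_le_mul_of_nonneg_right (h1 l hl) (norm_nonneg _)
            _ ≤ _ := by rw [← mul_sum]; exact mul_le_mul_of_nonneg_left h2 hA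
        rw [show (1 : ℝ) - 1 / 2 = 1 / 2 by norm_num, ← Real.mul_rpow hA hB, ← Real.sqrt_eq_rpow]
        exact Real.le_sqrt_of_sq_le (h3 ▸ h4))
      r (fun _ => le_rfl) (fun _ => by norm_num [r]) (fun _ => 1 / 2) (fun _ => by norm_num)
      (fun _ => by norm_num) (by
        intro M m _
        simp only [r]
        calc (1 / 2 : ℝ) ^ 2 ^ m ≤ (1 / 2) ^ 1 :=
              pow_le_pow_of_le_one (by norm_num) (by norm_num) Nat.one_le_two_pow
          _ = _ := by norm_num)
      (by
        apply Tendsto.const_div_atTop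
        apply Tendsto.const_mul_atTop (by norm_num)
        exact (tendsto_rpow_atTop (by norm_num)).comp tendsto_natCast_atTop_atTop)
      k (fun n => hasSum_L2 (k n)) F (by
        refine mem_closure_of_tendsto (hasSum_L2 F).tendsto_sum_nat (Eventually.of_forall fun N => ?_)
        exact Submodule.sum_mem _ fun l _ =>
          Submodule.smul_mem _ _ (Submodule.subset_span ⟨l, rfl⟩))
    refine ⟨c, ?_⟩
    rw [tendsto_iff_norm_sub_tendsto_zero] at hc
    have h2 := hc.pow 2
    rw [zero_pow two_ne_zero] at h2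
    refine h2.congr fun N => ?_
    rw [norm_sub_rev, normsq_L2]
    congr 1
    funext n
    rw [lp.coeFn_sub, lp.coeFn_sum]
    simp [F, k, lp.coeFn_smul]

end Pool.Agent.H954Z.Rep
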